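import Mathlib

set_option autoImplicit false
set_option linter.unusedSectionVars false
set_option linter.unusedVariables false

namespace Pool.Agent.OmegaOdd

/-- conjugates: the key computation on the differences `a - σ a` -/
theorem fix_sq {M : Type*} [Field M] (σ θ : M →+* M) (E : Set M)
    (hE : ∀ a ∈ E, ∀ b ∈ E, a * b ∈ E) {a : M} (ha : a ∈ E) (hσ : σ a ≠ a) {d : M} (hd : d ≠ 0)
    (hθ : ∀ b ∈ E, θ ((b - σ b) * d) = (b - σ b) * d) :
    θ ((a - σ a) ^ 2) = (a - σ a) ^ 2 := by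
  have h1 := hθ a ha
  have h2 := hθ (a * a) (hE a ha a ha)
  have h3 := hθ (a * (a * a)) (hE a ha _ (hE a ha a ha))
  simp only [map_mul, map_sub] at h1 h2 h3
  have hne : (a - σ a) * d ≠ 0 := mul_ne_zero (sub_ne_zero.2 (Ne.symm hσ)) hd
  -- `θ` fixes `a + σ a`
  have e1 : θ a + θ (σ a) = a + σ a := by
    apply mul_left_cancel₀ hne
    linear_combination h2 - (θ a + θ (σ a)) * h1
  have e2 : θ a ^ 2 + θ a * θ (σ a) + θ (σ a) ^ 2 = a ^ 2 + a * σ a + σ a ^ 2 := by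
    apply mul_left_cancel₀ hne
    linear_combination h3 - (θ a ^ 2 + θ a * θ (σ a) + θ (σ a) ^ 2) * h1
  simp only [map_pow, map_sub]
  linear_combination 4 * e2 - 3 * (θ a + θ (σ a) + a + σ a) * e1

section
variable {F M : Type*} [Field F] [Field M] [Finite M] [Algebra F M]

/-- the twisted diagonal action -/
def dd (σ : M →+* M) (a : M) (w : M × M) : M × M := (a * w.1, σ a * w.2)

/-- the rotation -/
def gg (x y η : M) (w : M × M) : M × M := (x * w.1 - η * y * w.2, y * w.1 + x * w.2)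

/-- the conjugate of the twisted diagonal action by the rotation -/
def dc (σ : M →+* M) (x y η : M) (a : M) (w : M × M) : M × M :=
  gg x y η (dd σ a (gg x (-y) η w))

theorem commutator_eq (σ : M →+* M) {x y η : M} (h1 : x ^ 2 + η * y ^ 2 = 1) (a b : M)
    (w : M × M) :
    dd σ a (dc σ x y η b w) - dc σ x y η b (dd σ a w) =
      ((a - σ a) * (b - σ b) * (x * y)) • (η * w.2, -w.1) := by
  simp only [dd, dc, gg, Prod.mk_sub_mk, Prod.smul_mk, smul_eq_mul, Prod.mk.injEq]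
  constructor
  · ring
  · ring

theorem commutator_sq (σ : M →+* M) {x y η : M} (h1 : x ^ 2 + η * y ^ 2 = 1) (a b a' b' : M)
    (w : M × M) :
    (dd σ a (dc σ x y η b (dd σ a' (dc σ x y η b' w) - dc σ x y η b' (dd σ a' w))) -
      dc σ x y η b (dd σ a (dd σ a' (dc σ x y η b' w) - dc σ x y η b' (dd σ a' w)))) =
      ((a - σ a) * (b - σ b) * ((a' - σ a') * (b' - σ b')) * (-(η * (x * y) ^ 2))) • w := by
  rw [commutator_eq σ h1, commutator_eq σ h1]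
  ext
  · simp only [Prod.smul_mk, smul_eq_mul, Prod.smul_fst]
    ring
  · simp only [Prod.smul_mk, smul_eq_mul, Prod.smul_snd]
    ring

/-- a bijective `F`-linear map normalising both structures is semilinear for `M` -/
theorem semilinear (σ : M →+* M) {x y η : M} (h1 : x ^ 2 + η * y ^ 2 = 1) (hη : ¬ IsSquare η)
    (hx : x ≠ 0) (hy : y ≠ 0) (hc : ∀ θ : M ≃ₐ[F] M, θ (x ^ 2) = x ^ 2 → θ = 1)
    (E E' : Set M) (hE : ∀ a ∈ E, ∀ b ∈ E, a * b ∈ E) (hE' : ∀ a ∈ E', ∀ b ∈ E', a * b ∈ E')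
    (hEσ : ∃ a ∈ E, σ a ≠ a) (hEσ' : ∃ a ∈ E', σ a ≠ a)
    (h : (M × M) →ₗ[F] (M × M)) (hinj : Function.Injective h)
    (hD : ∀ a ∈ E, ∃ a', ∀ w, h (dd σ a w) = dd σ a' (h w))
    (hD' : ∀ a ∈ E', ∃ a', ∀ w, h (dc σ x y η a w) = dc σ x y η a' (h w)) (c : M) :
    ∃ c' : M, ∀ w, h (c • w) = c' • h w := by
  have hη0 : η ≠ 0 := fun h => hη (h ▸ IsSquare.zero)
  -- the subalgebra
  let S : Subalgebra F M :=
    { carrier := {c | ∃ c' : M, ∀ w, h (c • w) = c' • h w}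
      mul_mem' := by
        rintro a b ⟨a', ha⟩ ⟨b', hb⟩
        exact ⟨a' * b', fun w => by rw [mul_smul, ha, hb, mul_smul]⟩
      add_mem' := by
        rintro a b ⟨a', ha⟩ ⟨b', hb⟩
        exact ⟨a' + b', fun w => by rw [add_smul, map_add, ha, hb, add_smul]⟩
      algebraMap_mem' := fun r => ⟨algebraMap F M r, fun w => by
        rw [algebraMap_smul, algebraMap_smul, map_smul]⟩ }
  have hS : ∀ c, c ∈ S ↔ ∃ c' : M, ∀ w, h (c • w) = c' • h w := fun c => Iff.rfl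
  rw [← hS]
  -- membership of the special elements
  have hp : ∀ a ∈ E, ∀ b ∈ E', ∀ a₂ ∈ E, ∀ b₂ ∈ E',
      (a - σ a) * (b - σ b) * ((a₂ - σ a₂) * (b₂ - σ b₂)) * (-(η * (x * y) ^ 2)) ∈ S := by
    intro a ha b hb a₂ ha₂ b₂ hb₂
    obtain ⟨a', ha'⟩ := hD a ha
    obtain ⟨b', hb'⟩ := hD' b hb
    obtain ⟨a₂', ha₂'⟩ := hD a₂ ha₂
    obtain ⟨b₂', hb₂'⟩ := hD' b₂ hb₂
    refine ⟨(a' - σ a') * (b' - σ b') * ((a₂' - σ a₂') * (b₂' - σ b₂')) * (-(η * (x * y) ^ 2)),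
      fun w => ?_⟩
    rw [← commutator_sq σ h1, ← commutator_sq σ h1]
    simp only [map_sub, ha', hb', ha₂', hb₂']
  obtain ⟨a₀, ha₀, hσa⟩ := hEσ
  obtain ⟨b₀, hb₀, hσb⟩ := hEσ'
  have hfa : a₀ - σ a₀ ≠ 0 := sub_ne_zero.2 (Ne.symm hσa)
  have hfb : b₀ - σ b₀ ≠ 0 := sub_ne_zero.2 (Ne.symm hσb)
  have hxy : -(η * (x * y) ^ 2) ≠ 0 :=
    neg_ne_zero.2 (mul_ne_zero hη0 (pow_ne_zero 2 (mul_ne_zero hx hy)))
  -- `S` as an intermediate field
  have : Finite F := Finite.of_injective _ (algebraMap F M).injective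
  let K : IntermediateField F M := S.toIntermediateField (fun c hcS => by
    by_cases h0 : c = 0
    · rw [h0, inv_zero]; exact S.zero_mem
    · have hfin : IsOfFinOrder (Units.mk0 c h0) := isOfFinOrder_of_finite _
      obtain ⟨n, hn, h2⟩ := isOfFinOrder_iff_pow_eq_one.1 hfin
      have h3 : c ^ n = 1 := by
        have := congrArg Units.val h2
        simpa using this
      have h4 : c⁻¹ = c ^ (n - 1) := by
        rw [inv_eq_of_mul_eq_one_left]
        rw [← pow_succ, Nat.sub_add_cancel hn, h3]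
      rw [h4]
      exact S.pow_mem hcS _)
  have hKS : ∀ c, c ∈ K ↔ c ∈ S := fun c => Iff.rfl
  have hbot : K.fixingSubgroup = ⊥ := by
    rw [eq_bot_iff]
    intro θ hθ
    rw [Subgroup.mem_bot]
    have hfix : ∀ c ∈ S, θ c = c := fun c hcS =>
      (IntermediateField.mem_fixingSubgroup_iff K θ).1 hθ c ((hKS c).2 hcS)
    have q1 : θ ((a₀ - σ a₀) ^ 2) = (a₀ - σ a₀) ^ 2 := by
      refine fix_sq σ (θ : M →+* M) E hE ha₀ hσa
        (d := (b₀ - σ b₀) * ((a₀ - σ a₀) * (b₀ - σ b₀)) * (-(η * (x * y) ^ 2)))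
        (mul_ne_zero (mul_ne_zero hfb (mul_ne_zero hfa hfb)) hxy) fun b hb => ?_
      have := hfix _ (hp b hb b₀ hb₀ a₀ ha₀ b₀ hb₀)
      have e : (b - σ b) * ((b₀ - σ b₀) * ((a₀ - σ a₀) * (b₀ - σ b₀)) * (-(η * (x * y) ^ 2))) =
        (b - σ b) * (b₀ - σ b₀) * ((a₀ - σ a₀) * (b₀ - σ b₀)) * (-(η * (x * y) ^ 2)) := by ring
      rw [e]
      exact this
    have q2 : θ ((b₀ - σ b₀) ^ 2) = (b₀ - σ b₀) ^ 2 := by
      refine fix_sq σ (θ : M →+* M) E' hE' hb₀ hσb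
        (d := (a₀ - σ a₀) * ((a₀ - σ a₀) * (b₀ - σ b₀)) * (-(η * (x * y) ^ 2)))
        (mul_ne_zero (mul_ne_zero hfa (mul_ne_zero hfa hfb)) hxy) fun b hb => ?_
      have := hfix _ (hp a₀ ha₀ b hb a₀ ha₀ b₀ hb₀)
      have e : (b - σ b) * ((a₀ - σ a₀) * ((a₀ - σ a₀) * (b₀ - σ b₀)) * (-(η * (x * y) ^ 2))) =
        (a₀ - σ a₀) * (b - σ b) * ((a₀ - σ a₀) * (b₀ - σ b₀)) * (-(η * (x * y) ^ 2)) := by ring
      rw [e]
      exact this
    have q3 : θ (η * (x * y) ^ 2) = η * (x * y) ^ 2 := by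
      have h4 := hfix _ (hp a₀ ha₀ b₀ hb₀ a₀ ha₀ b₀ hb₀)
      have h5 : (a₀ - σ a₀) * (b₀ - σ b₀) * ((a₀ - σ a₀) * (b₀ - σ b₀)) * (-(η * (x * y) ^ 2)) =
        -((a₀ - σ a₀) ^ 2 * (b₀ - σ b₀) ^ 2 * (η * (x * y) ^ 2)) := by ring
      rw [h5, map_neg, neg_inj, map_mul, map_mul, q1, q2] at h4
      exact mul_left_cancel₀ (mul_ne_zero (pow_ne_zero 2 hfa) (pow_ne_zero 2 hfb)) h4
    -- `θ c = c` or `θ c = 1 - c`
    have q4 : (θ (x ^ 2) - x ^ 2) * (θ (x ^ 2) - (1 - x ^ 2)) = 0 := by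
      have e1 : η * (x * y) ^ 2 = x ^ 2 * (1 - x ^ 2) := by linear_combination x ^ 2 * h1
      rw [e1, map_mul, map_sub, map_one] at q3
      linear_combination -q3
    apply hc
    rcases mul_eq_zero.1 q4 with h6 | h6
    · exact sub_eq_zero.1 h6
    · exfalso
      have h7 : η * y ^ 2 = (θ x) ^ 2 := by
        rw [map_pow] at h6
        linear_combination h1 - h6
      apply hη
      refine ⟨θ x * y⁻¹, ?_⟩
      field_simp
      exact h7
  have htop : K = ⊤ := by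
    rw [← IsGalois.fixedField_fixingSubgroup K, hbot, IntermediateField.fixedField_bot]
  rw [← hKS, htop]
  exact IntermediateField.mem_top

end

end Pool.Agent.OmegaOdd
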