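import Mathlib
import Pool.Agent.OmegaOdd.Core

set_option autoImplicit false
set_option linter.unusedSectionVars false
set_option linter.unusedVariables false

namespace Pool.Agent.OmegaOdd

section
variable {F M : Type*} [Field F] [Field M] [Finite M] [Algebra F M]

theorem gg_gg {x y η : M} (h1 : x ^ 2 + η * y ^ 2 = 1) (w : M × M) :
    gg x y η (gg x (-y) η w) = w := by
  ext
  · simp only [gg]; linear_combination w.1 * h1
  · simp only [gg]; linear_combination w.2 * h1

theorem gg_gg' {x y η : M} (h1 : x ^ 2 + η * y ^ 2 = 1) (w : M × M) :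
    gg x (-y) η (gg x y η w) = w := by
  ext
  · simp only [gg]; linear_combination w.1 * h1
  · simp only [gg]; linear_combination w.2 * h1

theorem gg_smul (x y η c : M) (w : M × M) : gg x y η (c • w) = c • gg x y η w := by
  ext
  · simp only [gg, Prod.smul_fst, Prod.smul_snd, smul_eq_mul]; ring
  · simp only [gg, Prod.smul_fst, Prod.smul_snd, smul_eq_mul]; ring

theorem gg_add (x y η : M) (w w' : M × M) : gg x y η (w + w') = gg x y η w + gg x y η w' := by
  ext
  · simp only [gg, Prod.fst_add, Prod.snd_add]; ring
  · simp only [gg, Prod.fst_add, Prod.snd_add]; ring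

/-- a semilinear bijection normalising the twisted diagonal permutes the two axes projections -/
theorem proj_conj (σ θ : M →+* M) (h : M × M → M × M) (hadd : ∀ w w', h (w + w') = h w + h w')
    (hθ : ∀ (c : M) w, h (c • w) = θ c • h w) (hinj : Function.Injective h)
    (hsurj : Function.Surjective h) {a a' : M} (ha : σ a ≠ a)
    (hD : ∀ w, h (dd σ a w) = dd σ a' (h w)) :
    (∀ w : M × M, h (w.1, 0) = ((h w).1, 0)) ∨ (∀ w : M × M, h (w.1, 0) = (0, (h w).2)) := by
  have hf : θ (a - σ a) ≠ 0 := by
    rw [map_ne_zero]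
    exact sub_ne_zero.2 (Ne.symm ha)
  set l := (θ (a - σ a))⁻¹ * (a' - σ a') with hl
  set k := (θ (a - σ a))⁻¹ * (σ a' - θ (σ a)) with hk
  have h0 : h 0 = 0 := by
    have := hadd 0 0
    rw [add_zero] at this
    exact left_eq_add.1 this
  have key : ∀ w : M × M, h (w.1, 0) = ((l + k) * (h w).1, k * (h w).2) := by
    intro w
    have e1 : dd σ a w = (a - σ a) • ((w.1, 0) : M × M) + σ a • w := by
      ext
      · simp only [dd, Prod.smul_mk, Prod.fst_add, Prod.smul_fst, smul_eq_mul]; ring
      · simp only [dd, Prod.smul_mk, Prod.snd_add, Prod.smul_snd, smul_eq_mul]; ring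
    have e2 := hD w
    rw [e1, hadd, hθ, hθ] at e2
    have e3 : h (w.1, 0) = (θ (a - σ a))⁻¹ • (dd σ a' (h w) - θ (σ a) • h w) := by
      rw [← e2, add_sub_cancel_right, smul_smul, inv_mul_cancel₀ hf, one_smul]
    rw [e3]
    ext
    · simp only [dd, Prod.smul_fst, Prod.fst_sub, smul_eq_mul, hl, hk]; ring
    · simp only [dd, Prod.smul_snd, Prod.snd_sub, smul_eq_mul, hl, hk]; ring
  obtain ⟨w, hw⟩ := hsurj (1, 1)
  have k1 := key w
  have k2 := key (w.1, 0)
  rw [k1, hw] at k2
  simp only [mul_one, Prod.mk.injEq] at k2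
  obtain ⟨k3, k4⟩ := k2
  have k5 : k = 0 ∨ k = 1 := by
    have : k * (k - 1) = 0 := by linear_combination -k4
    rcases mul_eq_zero.1 this with h | h
    · exact Or.inl h
    · exact Or.inr (sub_eq_zero.1 h)
  have k6 : l + k = 0 ∨ l + k = 1 := by
    have : (l + k) * (l + k - 1) = 0 := by linear_combination -k3
    rcases mul_eq_zero.1 this with h | h
    · exact Or.inl h
    · exact Or.inr (sub_eq_zero.1 h)
  rcases k5 with k5 | k5
  · rcases k6 with k6 | k6
    · exfalso
      have := key (1, 0)
      rw [k6, k5, zero_mul, zero_mul] at this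
      have h2 : h ((1, 0) : M × M) = h 0 := by rw [h0]; exact this
      have h3 := hinj h2
      exact one_ne_zero (congrArg Prod.fst h3)
    · left
      intro w
      rw [key w, k6, k5, one_mul, zero_mul]
  · rcases k6 with k6 | k6
    · right
      intro w
      rw [key w, k6, k5, one_mul, zero_mul]
    · exfalso
      have := key (0, 1)
      rw [k6, k5, one_mul, one_mul] at this
      have h3 := hinj this
      exact zero_ne_one (congrArg Prod.snd h3)

theorem tr_cancel {a b : M} (h : ∀ c : M, Algebra.trace F M (c * a) = Algebra.trace F M (c * b)) :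
    a = b := by
  have : Finite F := Finite.of_injective _ (algebraMap F M).injective
  have hnd := traceForm_nondegenerate F M
  rw [← sub_eq_zero]
  apply hnd.1
  intro c
  rw [Algebra.traceForm_apply, sub_mul, map_sub, mul_comm a c, mul_comm b c, h c, sub_self]

/-- the core: only `± 1` normalises both structures -/
theorem core (σ : M →+* M) {x y η : M} (h1 : x ^ 2 + η * y ^ 2 = 1) (hη : ¬ IsSquare η)
    (hx : x ≠ 0) (hy : y ≠ 0) (hc : ∀ θ : M ≃ₐ[F] M, θ (x ^ 2) = x ^ 2 → θ = 1)
    (E E' : Set M) (hE : ∀ a ∈ E, ∀ b ∈ E, a * b ∈ E) (hE' : ∀ a ∈ E', ∀ b ∈ E', a * b ∈ E')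
    (hEσ : ∃ a ∈ E, σ a ≠ a) (hEσ' : ∃ a ∈ E', σ a ≠ a) {α : M} (hα : α ≠ 0)
    (h : (M × M) →ₗ[F] (M × M)) (hinj : Function.Injective h)
    (hD : ∀ a ∈ E, ∃ a', ∀ w, h (dd σ a w) = dd σ a' (h w))
    (hD' : ∀ a ∈ E', ∃ a', ∀ w, h (dc σ x y η a w) = dc σ x y η a' (h w))
    (hB : ∀ w w', Algebra.trace F M (α * ((h w).1 * (h w').1 + η * ((h w).2 * (h w').2))) =
      Algebra.trace F M (α * (w.1 * w'.1 + η * (w.2 * w'.2)))) :
    (∀ w, h w = w) ∨ (∀ w, h w = -w) := by
  have hsurj : Function.Surjective h := Finite.surjective_of_injective hinj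
  have hsemi := semilinear σ h1 hη hx hy hc E E' hE hE' hEσ hEσ' h hinj hD hD'
  choose t ht using hsemi
  -- the field automorphism
  have hv : h (1, 0) ≠ 0 := by
    intro h2
    have h3 := hinj (h2.trans (map_zero h).symm)
    exact one_ne_zero (congrArg Prod.fst h3)
  have huniq : ∀ a b : M, a • h (1, 0) = b • h (1, 0) → a = b := fun a b hab =>
    smul_left_injective M hv hab
  let θh : M →ₐ[F] M :=
    { toFun := t
      map_one' := huniq _ _ (by rw [← ht, one_smul, one_smul])
      map_mul' := fun a b => huniq _ _ (by rw [← ht, mul_smul, ht, ht, mul_smul])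
      map_zero' := huniq _ _ (by rw [← ht, zero_smul, map_zero, zero_smul])
      map_add' := fun a b => huniq _ _ (by rw [← ht, add_smul, map_add, ht, ht, add_smul])
      commutes' := fun r => huniq _ _ (by rw [← ht, algebraMap_smul, map_smul, algebraMap_smul]) }
  have hθb : Function.Bijective θh :=
    ⟨θh.toRingHom.injective, Finite.surjective_of_injective θh.toRingHom.injective⟩
  let θ : M ≃ₐ[F] M := AlgEquiv.ofBijective θh hθb
  have hθ : ∀ (c : M) w, h (c • w) = θ c • h w := ht
  -- a square and a non-square
  have hnosq : θ (x ^ 2) ≠ η * y ^ 2 := by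
    intro h2
    rw [map_pow] at h2
    apply hη
    refine ⟨θ x * y⁻¹, ?_⟩
    field_simp
    exact h2.symm
  obtain ⟨a₀, ha₀, hσa⟩ := hEσ
  obtain ⟨b₀, hb₀, hσb⟩ := hEσ'
  obtain ⟨a₀', ha₀'⟩ := hD a₀ ha₀
  obtain ⟨b₀', hb₀'⟩ := hD' b₀ hb₀
  have hP := proj_conj σ (θ : M →+* M) h (fun w w' => map_add h w w') hθ hinj hsurj hσa ha₀'
  have hP' := proj_conj σ (θ : M →+* M) (fun w => gg x (-y) η (h (gg x y η w)))
    (fun w w' => by simp only [gg_add, map_add])
    (fun c w => by
      change gg x (-y) η (h (gg x y η (c • w))) = _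
      rw [gg_smul, hθ, gg_smul]; rfl)
    (fun w w' hww => by
      have e := congrArg (gg x y η) hww
      simp only [gg_gg h1] at e
      have e2 := congrArg (gg x (-y) η) (hinj e)
      simpa only [gg_gg' h1] using e2)
    (fun v => by
      obtain ⟨w, hw⟩ := hsurj (gg x y η v)
      refine ⟨gg x (-y) η w, ?_⟩
      change gg x (-y) η (h (gg x y η (gg x (-y) η w))) = v
      rw [gg_gg h1, hw, gg_gg' h1]) hσb (a' := b₀')
    (fun w => by
      change gg x (-y) η (h (gg x y η (dd σ b₀ w))) = dd σ b₀' (gg x (-y) η (h (gg x y η w)))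
      have e := hb₀' (gg x y η w)
      rw [dc, dc, gg_gg' h1] at e
      rw [e, gg_gg' h1])
  -- the second statement in terms of `h`
  have hP2 : (∀ w : M × M, h (gg x y η ((gg x (-y) η w).1, 0)) =
      gg x y η ((gg x (-y) η (h w)).1, 0)) ∨
      (∀ w : M × M, h (gg x y η ((gg x (-y) η w).1, 0)) =
      gg x y η (0, (gg x (-y) η (h w)).2)) := by
    rcases hP' with hP' | hP'
    · left
      intro w
      have e := congrArg (gg x y η) (hP' (gg x (-y) η w))
      simpa only [gg_gg h1] using e
    · right
      intro w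
      have e := congrArg (gg x y η) (hP' (gg x (-y) η w))
      simpa only [gg_gg h1] using e
  have h10 : h ((x ^ 2, 0) : M × M) = θ (x ^ 2) • h (1, 0) := by
    rw [← hθ]; simp
  have hp1 : gg x y η ((gg x (-y) η ((1, 0) : M × M)).1, 0) = (x ^ 2, x * y) := by
    ext
    · simp only [gg]; ring
    · simp only [gg]; ring
  rcases hP with hP | hP
  · -- `h (1,0) = (p, 0)`
    have e1 := hP (1, 0)
    obtain ⟨p, hp⟩ : ∃ p, p = (h (1, 0)).1 := ⟨_, rfl⟩
    rw [← hp] at e1
    have hp0 : p ≠ 0 := by
      intro h0; apply hv; rw [e1, h0]; rfl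
    have e2 := hP (x ^ 2, x * y)
    rcases hP2 with hP2 | hP2
    · have e3 := hP2 (1, 0)
      rw [hp1, e1] at e3
      have e4 : h (x ^ 2, x * y) = (x ^ 2 * p, x * y * p) := by
        rw [e3]
        ext
        · simp only [gg]; ring
        · simp only [gg]; ring
      rw [e4] at e2
      simp only at e2
      rw [h10, e1] at e2
      have e5 : θ (x ^ 2) = x ^ 2 := by
        have := congrArg Prod.fst e2
        simp only [Prod.smul_mk, smul_eq_mul] at this
        exact mul_right_cancel₀ hp0 this
      have hθ1 := hc θ e5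
      rw [hθ1] at hθ
      -- now `h` is `M`-linear
      have hlin : ∀ (c : M) w, h (c • w) = c • h w := fun c w => hθ c w
      have e6 := hP (0, 1)
      have e7 : (h (0, 1)).1 = 0 := by
        have := congrArg Prod.fst e6
        simp only at this
        have h00 : h ((0, 0) : M × M) = 0 := map_zero h
        rw [h00] at this
        exact this.symm
      obtain ⟨r, hr⟩ : ∃ r, r = (h (0, 1)).2 := ⟨_, rfl⟩
      have e8 : h (0, 1) = (0, r) := Prod.ext e7 hr.symm
      have hdec : ∀ w : M × M, h w = (w.1 * p, w.2 * r) := by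
        intro w
        have : w = w.1 • ((1, 0) : M × M) + w.2 • ((0, 1) : M × M) := by
          ext <;> simp
        conv_lhs => rw [this]
        rw [map_add, hlin, hlin, e1, e8]
        ext <;> simp
      have hpr : r = p := by
        rw [hdec] at e4
        have := congrArg Prod.snd e4
        simp only at this
        exact mul_left_cancel₀ (mul_ne_zero hx hy) this
      have hpp : α * p ^ 2 = α := by
        apply tr_cancel (F := F)
        intro c
        have := hB (c, 0) (1, 0)
        rw [hdec, hdec] at this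
        simp only [zero_mul, mul_zero, add_zero, one_mul, mul_one] at this
        calc Algebra.trace F M (c * (α * p ^ 2)) = Algebra.trace F M (α * (c * p * p)) := by
              congr 1; ring
          _ = Algebra.trace F M (α * c) := this
          _ = _ := by rw [mul_comm]
      have hp2 : p ^ 2 = 1 := by
        apply mul_left_cancel₀ hα
        rw [hpp, mul_one]
      rcases sq_eq_one_iff.1 hp2 with h3 | h3
      · left
        intro w
        rw [hdec, hpr, h3, mul_one, mul_one]
      · right
        intro w
        rw [hdec, hpr, h3]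
        ext <;> simp
    · exfalso
      have e3 := hP2 (1, 0)
      rw [hp1, e1] at e3
      have e4 : h (x ^ 2, x * y) = (η * y ^ 2 * p, -(x * y * p)) := by
        rw [e3]
        ext
        · simp only [gg]; ring
        · simp only [gg]; ring
      rw [e4] at e2
      simp only at e2
      rw [h10, e1] at e2
      have := congrArg Prod.fst e2
      simp only [Prod.smul_mk, smul_eq_mul] at this
      exact hnosq (mul_right_cancel₀ hp0 this)
  · -- `h (1,0) = (0, r)`
    exfalso
    have e1 := hP (1, 0)
    obtain ⟨r, hr⟩ : ∃ r, r = (h (1, 0)).2 := ⟨_, rfl⟩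
    rw [← hr] at e1
    have hr0 : r ≠ 0 := by
      intro h0; apply hv; rw [e1, h0]; rfl
    have e2 := hP (x ^ 2, x * y)
    rcases hP2 with hP2 | hP2
    · have e3 := hP2 (1, 0)
      rw [hp1, e1] at e3
      have e4 : h (x ^ 2, x * y) = (η * (x * y) * r, η * y ^ 2 * r) := by
        rw [e3]
        ext
        · simp only [gg]; ring
        · simp only [gg]; ring
      rw [e4] at e2
      simp only at e2
      rw [h10, e1] at e2
      have := congrArg Prod.snd e2
      simp only [Prod.smul_mk, smul_eq_mul] at this
      exact hnosq (mul_right_cancel₀ hr0 this)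
    · have e3 := hP2 (1, 0)
      rw [hp1, e1] at e3
      have e4 : h (x ^ 2, x * y) = (-(η * (x * y) * r), x ^ 2 * r) := by
        rw [e3]
        ext
        · simp only [gg]; ring
        · simp only [gg]; ring
      rw [e4] at e2
      simp only at e2
      rw [h10, e1] at e2
      have e5 : θ (x ^ 2) = x ^ 2 := by
        have := congrArg Prod.snd e2
        simp only [Prod.smul_mk, smul_eq_mul] at this
        exact mul_right_cancel₀ hr0 this
      have hθ1 := hc θ e5
      rw [hθ1] at hθ
      have hlin : ∀ (c : M) w, h (c • w) = c • h w := fun c w => hθ c w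
      have hcc : ∀ c : M, h (c, 0) = (0, c * r) := by
        intro c
        have : ((c, 0) : M × M) = c • ((1, 0) : M × M) := by ext <;> simp
        rw [this, hlin, e1]
        ext <;> simp
      have hpp : α * (η * r ^ 2) = α := by
        apply tr_cancel (F := F)
        intro c
        have := hB (c, 0) (1, 0)
        rw [hcc, hcc] at this
        simp only [zero_mul, mul_zero, add_zero, zero_add, one_mul, mul_one] at this
        calc Algebra.trace F M (c * (α * (η * r ^ 2))) =
            Algebra.trace F M (α * (η * (c * r * r))) := by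
              congr 1; ring
          _ = Algebra.trace F M (α * c) := this
          _ = _ := by rw [mul_comm]
      have hp2 : η * r ^ 2 = 1 := by
        apply mul_left_cancel₀ hα
        rw [hpp, mul_one]
      apply hη
      refine ⟨r⁻¹, ?_⟩
      field_simp
      exact hp2

end

end Pool.Agent.OmegaOdd
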