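import Mathlib

set_option autoImplicit false
set_option linter.unusedSectionVars false
set_option linter.unusedVariables false

namespace Pool.Agent.OmegaOdd

open Module

theorem card_mod_four {F L : Type*} [Field F] [Field L] [Finite L] [Algebra F L]
    (h2 : (2 : L) ≠ 0) (hm : Even (finrank F L)) : Nat.card L % 4 = 1 := by
  have hF : Finite F := Finite.of_injective _ (algebraMap F L).injective
  have hodd : Nat.card F % 2 = 1 := by
    cases nonempty_fintype F
    rw [Nat.card_eq_fintype_card]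
    apply FiniteField.odd_card_of_char_ne_two
    intro h
    apply h2
    have : (2 : F) = 0 := by
      have := ringChar.Nat.cast_ringChar (R := F)
      rw [h] at this
      exact_mod_cast this
    have h3 := congrArg (algebraMap F L) this
    rwa [map_ofNat, map_zero] at h3
  obtain ⟨k, hk⟩ := hm
  have : Nat.card L = (Nat.card F ^ k) ^ 2 := by
    rw [← pow_mul, Module.natCard_eq_pow_finrank (K := F) (V := L), hk]
    congr 1; ring
  rw [this]
  have h3 : (Nat.card F ^ k) % 2 = 1 := by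
    rw [Nat.pow_mod, hodd]; simp
  rw [sq, Nat.mul_mod]
  have h4 : (Nat.card F ^ k) % 4 = 1 ∨ (Nat.card F ^ k) % 4 = 3 := by omega
  rcases h4 with h4 | h4 <;> rw [h4]

theorem isSquare_neg_one' {F L : Type*} [Field F] [Field L] [Finite L] [Algebra F L]
    (h2 : (2 : L) ≠ 0) (hm : Even (finrank F L)) : IsSquare (-1 : L) := by
  cases nonempty_fintype L
  rw [FiniteField.isSquare_neg_one_iff, ← Nat.card_eq_fintype_card, card_mod_four (F := F) h2 hm]
  decide

theorem qmul {L : Type*} [Field L] (η x y x' y' : L) :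
    (⟨x, y⟩ : QuadraticAlgebra L (-η) 0) * ⟨x', y'⟩ = ⟨x * x' - η * y * y', x * y' + y * x'⟩ := by
  ext
  · simp; ring
  · simp

theorem exists_rotation {F L : Type*} [Field F] [Field L] [Finite L] [Algebra F L]
    (h2 : (2 : L) ≠ 0) (hm : Even (finrank F L)) {η : L} (hη : ¬ IsSquare η) :
    ∃ x₁ y₁ : L, x₁ ^ 2 + η * y₁ ^ 2 = 1 ∧ x₁ ^ 2 - η * y₁ ^ 2 ≠ 0 ∧ 2 * x₁ * y₁ ≠ 0 ∧
      ∀ θ : L ≃ₐ[F] L, θ ((x₁ ^ 2 - η * y₁ ^ 2) ^ 2) = (x₁ ^ 2 - η * y₁ ^ 2) ^ 2 → θ = 1 := by
  have hF : Finite F := Finite.of_injective _ (algebraMap F L).injective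
  have hneg : ¬ IsSquare (-η) := by
    intro h
    apply hη
    have := h.mul (isSquare_neg_one' (F := F) h2 hm)
    simpa using this
  have : Fact (∀ r : L, r ^ 2 ≠ -η + 0 * r) := ⟨fun r hr => hneg ⟨r, by
    rw [← sq, hr]; ring⟩⟩
  let N := QuadraticAlgebra L (-η) 0
  have : Finite N := Module.finite_of_finite L
  have hcard : Nat.card N = Nat.card L ^ 2 := by
    rw [Module.natCard_eq_pow_finrank (K := L) (V := N), QuadraticAlgebra.finrank_eq_two]
  set Q := Nat.card L with hQ
  have hQ1 : 1 < Q := Finite.one_lt_card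
  have hQ4 : Q % 4 = 1 := card_mod_four (F := F) h2 hm
  -- generator of the unit group
  obtain ⟨g, hg⟩ := IsCyclic.exists_generator (α := Nˣ)
  have hgo : orderOf g = Q ^ 2 - 1 := by
    rw [orderOf_eq_card_of_forall_mem_zpowers hg, Nat.card_units, hcard]
  set k := g ^ (Q - 1) with hk
  have hQ2 : Q ^ 2 - 1 = (Q - 1) * (Q + 1) := by
    obtain ⟨r, hr⟩ : ∃ r, Q = r + 1 := ⟨Q - 1, by omega⟩
    rw [hr]
    have : (r + 1) ^ 2 = r * (r + 1 + 1) + 1 := by ring
    rw [this]; simp
  have hko : orderOf k = Q + 1 := by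
    rw [hk, orderOf_pow, hgo, hQ2, Nat.gcd_eq_right (Dvd.intro _ rfl)]
    exact Nat.mul_div_cancel_left _ (by omega)
  have hu : orderOf (k ^ 4) = (Q + 1) / 2 := by
    rw [orderOf_pow, hko]
    congr 1
    have e1 : Q + 1 = 2 * ((Q + 1) / 2) := by omega
    have e2 : Nat.gcd 4 (Q + 1) = 2 := by
      have : (Q + 1) % 4 = 2 := by omega
      rw [Nat.gcd_rec, this]
      norm_num
    rw [Nat.gcd_comm, e2]
  -- norm one
  have hnorm : QuadraticAlgebra.norm (k : N) = 1 := by
    rw [hk, Units.val_pow_eq_pow_val, map_pow]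
    have hne : QuadraticAlgebra.norm (g : N) ≠ 0 := by
      intro h0
      have h1 := QuadraticAlgebra.isUnit_iff_norm_isUnit.1 g.isUnit
      rw [h0] at h1
      exact not_isUnit_zero h1
    cases nonempty_fintype L
    rw [hQ, Nat.card_eq_fintype_card]
    exact FiniteField.pow_card_sub_one_eq_one _ hne
  obtain ⟨x, hx⟩ : ∃ x, x = (k : N).re := ⟨_, rfl⟩
  obtain ⟨y, hy⟩ : ∃ y, y = (k : N).im := ⟨_, rfl⟩
  have hxy : x ^ 2 + η * y ^ 2 = 1 := by
    rw [QuadraticAlgebra.norm_def, ← hx, ← hy] at hnorm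
    linear_combination hnorm
  have hkv : (k : N) = ⟨x, y⟩ := by rw [hx, hy]
  have hki : ((k⁻¹ : Nˣ) : N) = ⟨x, -y⟩ := by
    rw [Units.inv_eq_of_mul_eq_one_right]
    rw [hkv]
    refine (qmul η x y x (-y)).trans ?_
    ext
    · change x * x - η * y * -y = 1
      linear_combination hxy
    · change x * -y + y * x = 0
      ring
  have hk2 : ((k ^ 2 : Nˣ) : N) = ⟨x ^ 2 - η * y ^ 2, 2 * x * y⟩ := by
    rw [Units.val_pow_eq_pow_val, hkv, sq]
    refine (qmul η x y x y).trans ?_
    ext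
    · change x * x - η * y * y = x ^ 2 - η * y ^ 2
      ring
    · change x * y + y * x = 2 * x * y
      ring
  have hk2i : (((k ^ 2)⁻¹ : Nˣ) : N) = ⟨x ^ 2 - η * y ^ 2, -(2 * x * y)⟩ := by
    rw [← inv_pow, Units.val_pow_eq_pow_val, hki, sq]
    refine (qmul η x (-y) x (-y)).trans ?_
    ext
    · change x * x - η * -y * -y = x ^ 2 - η * y ^ 2
      ring
    · change x * -y + -y * x = -(2 * x * y)
      ring
  obtain ⟨X, hX⟩ : ∃ X, X = x ^ 2 - η * y ^ 2 := ⟨_, rfl⟩
  obtain ⟨Y, hY⟩ : ∃ Y, Y = 2 * x * y := ⟨_, rfl⟩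
  rw [← hX, ← hY] at hk2 hk2i
  have hR : 3 ≤ (Q + 1) / 2 := by omega
  have hR2 : (Q + 1) / 2 % 2 = 1 := by omega
  have hu4 : k ^ 4 = k ^ 2 * k ^ 2 := by rw [← pow_add]
  refine ⟨x, y, hxy, ?_, ?_, ?_⟩
  · rw [← hX]
    intro h0
    have e1 : (k ^ 4) ^ 2 = 1 := by
      have e2 : ((k ^ 2 : Nˣ) : N) = -(((k ^ 2)⁻¹ : Nˣ) : N) := by
        rw [hk2, hk2i, h0]
        ext
        · change (0 : L) = -0
          rw [neg_zero]
        · change Y = -(-Y)
          rw [neg_neg]
      have e3 : ((k ^ 4 : Nˣ) : N) = -1 := by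
        rw [hu4, Units.val_mul]
        conv_lhs => lhs; rw [e2]
        rw [neg_mul, Units.inv_mul]
      ext1
      rw [Units.val_pow_eq_pow_val, e3]
      simp
    have e4 := orderOf_dvd_of_pow_eq_one e1
    rw [hu] at e4
    have := Nat.le_of_dvd (by norm_num) e4
    omega
  · rw [← hY]
    intro h0
    have e1 : k ^ 4 = 1 := by
      have e2 : ((k ^ 2 : Nˣ) : N) = (((k ^ 2)⁻¹ : Nˣ) : N) := by
        rw [hk2, hk2i, h0, neg_zero]
      have e3 : k ^ 2 = (k ^ 2)⁻¹ := Units.ext e2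
      rw [hu4]
      conv_lhs => lhs; rw [e3]
      rw [inv_mul_cancel]
    rw [e1, orderOf_one] at hu
    omega
  · rw [← hX]
    intro θ hθ
    cases nonempty_fintype F
    obtain ⟨⟨j, hj⟩, rfl⟩ := (FiniteField.bijective_frobeniusAlgEquivOfAlgebraic_pow F L).2 θ
    simp only at hθ ⊢
    set q := Fintype.card F with hq
    have hpow : ∀ a : L, (FiniteField.frobeniusAlgEquivOfAlgebraic F L ^ j) a = a ^ q ^ j := by
      intro a
      rw [AlgEquiv.coe_pow, FiniteField.coe_frobeniusAlgEquivOfAlgebraic_iterate]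
    rw [hpow] at hθ
    have hq2 : Nat.card F = q := Nat.card_eq_fintype_card
    have hQq : Q = q ^ finrank F L := by
      rw [hQ, Module.natCard_eq_pow_finrank (K := F) (V := L), hq2]
    -- the Frobenius power on `N`
    let Ψ : N →ₐ[F] N := (FiniteField.frobeniusAlgHom F N) ^ j
    have hΨ : ∀ z : N, Ψ z = z ^ q ^ j := by
      intro z
      change ((FiniteField.frobeniusAlgHom F N) ^ j) z = _
      rw [AlgHom.coe_pow, FiniteField.coe_frobeniusAlgHom, pow_iterate]
    have e1 : ((k ^ 2 : Nˣ) : N) + (((k ^ 2)⁻¹ : Nˣ) : N) = algebraMap L N (2 * X) := by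
      rw [hk2, hk2i]
      ext
      · change X + X = 2 * X
        ring
      · change Y + -Y = 0
        ring
    have e2 : ((k ^ 4 : Nˣ) : N) + 2 + (((k ^ 4)⁻¹ : Nˣ) : N) = algebraMap L N (4 * X ^ 2) := by
      have e3 : (4 * X ^ 2 : L) = (2 * X) * (2 * X) := by ring
      rw [e3, map_mul, ← e1, hu4, mul_inv, Units.val_mul, Units.val_mul]
      have e4 : ((k ^ 2 : Nˣ) : N) * (((k ^ 2)⁻¹ : Nˣ) : N) = 1 := Units.mul_inv _
      linear_combination -2 * e4
    have e3 : Ψ (algebraMap L N (4 * X ^ 2)) = algebraMap L N (4 * X ^ 2) := by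
      rw [hΨ, ← map_pow, mul_pow, hθ]
      congr 2
      have : (4 : L) = algebraMap F L 4 := by rw [map_ofNat]
      rw [this, ← map_pow, FiniteField.pow_card_pow]
    rw [← e2, map_add, map_add, map_ofNat, hΨ, hΨ] at e3
    set u := k ^ 4 with hu'
    have e4 : ((u : N) ^ q ^ j - u) * (1 - ((u⁻¹ : Nˣ) : N) ^ q ^ j * ((u⁻¹ : Nˣ) : N)) = 0 := by
      have e5 : (u : N) ^ q ^ j * ((u⁻¹ : Nˣ) : N) ^ q ^ j = 1 := by
        rw [← mul_pow, Units.mul_inv, one_pow]
      have e6 : (u : N) * ((u⁻¹ : Nˣ) : N) = 1 := Units.mul_inv _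
      linear_combination e3 - ((u⁻¹ : Nˣ) : N) * e5 + ((u⁻¹ : Nˣ) : N) ^ q ^ j * e6
    have hj0 : j = 0 := by
      by_contra hj0
      have hq3 : 3 ≤ q := by
        have h1 : 1 < q := Fintype.one_lt_card
        have h2' : q ≠ 2 := by
          intro h3
          have h4 : Q % 4 = 0 ∨ Q = 2 := by
            rw [hQq, h3]
            have : 2 ≤ finrank F L := by omega
            left
            obtain ⟨r, hr⟩ := Nat.exists_eq_add_of_le this
            rw [hr, pow_add]
            omega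
          omega
        omega
      have h5 : q ^ j ≤ q ^ (finrank F L - 1) := Nat.pow_le_pow_right (by omega) (by omega)
      have h6 : Q = q * q ^ (finrank F L - 1) := by
        rw [hQq, ← pow_succ']
        congr 1; omega
      have h7 : q ≤ q ^ j := Nat.le_self_pow hj0 q
      have h8 : 3 * q ^ (finrank F L - 1) ≤ Q := by
        rw [h6]; exact Nat.mul_le_mul_right _ hq3
      rcases mul_eq_zero.1 e4 with e5 | e5
      · have e6 : u ^ q ^ j = u := by
          ext1
          rw [Units.val_pow_eq_pow_val]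
          exact sub_eq_zero.1 e5
        have e7 : u ^ (q ^ j - 1) = 1 := by
          have : u ^ (q ^ j - 1) * u = u := by
            rw [← pow_succ, Nat.sub_add_cancel (by omega), e6]
          exact mul_eq_right.1 this
        have e8 := Nat.le_of_dvd (by omega) (orderOf_dvd_of_pow_eq_one e7)
        rw [hu] at e8
        omega
      · have e6 : (u⁻¹) ^ q ^ j * u⁻¹ = 1 := by
          ext1
          rw [Units.val_mul, Units.val_pow_eq_pow_val, Units.val_one]
          exact (sub_eq_zero.1 e5).symm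
        have e7 : u ^ (q ^ j + 1) = 1 := by
          rw [← pow_succ, inv_pow, inv_eq_one] at e6
          exact e6
        have e8 := Nat.le_of_dvd (by omega) (orderOf_dvd_of_pow_eq_one e7)
        rw [hu] at e8
        omega
    subst hj0
    rw [pow_zero]

end Pool.Agent.OmegaOdd
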