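import Mathlib
import Pool.Agent.OmegaEven.Defs

set_option autoImplicit false

/-! Definitions for the statements on orthogonal groups in odd characteristic. -/

namespace Pool.Agent.OmegaOdd

open Pool.Agent.OmegaEven

section groups

/-- the intersection of `H t` and `H' t'` lies in `Z` for all divisors `t, t' > 1` of `m` -/
def MeetIn {G : Type*} [Group G] (Z : Subgroup G) (H H' : ℕ → Subgroup G) (m : ℕ) : Prop :=
  ∀ t t', t ∣ m → t' ∣ m → 1 < t → 1 < t' → H t ⊓ H' t' ≤ Z

/-- every maximal subgroup of `G` which contains `s` lies in `P t` for some prime divisor `t`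
of `m` -/
def OnlyOvergroups {G : Type*} [Group G] (s : G) (P : ℕ → Set G) (m : ℕ) : Prop :=
  ∀ N : Subgroup G, IsCoatom N → s ∈ N → ∃ t, t.Prime ∧ t ∣ m ∧ (N : Set G) ⊆ P t

end groups

variable {F V : Type*} [Field F] [AddCommGroup V] [Module F V]

/-- `V` has no proper nonzero subspace stable under `g` -/
def ActsIrreducibly (g : V ≃ₗ[F] V) : Prop :=
  ∀ Y : Submodule F V, (∀ y ∈ Y, g y ∈ Y) → Y = ⊥ ∨ Y = ⊤

/-- `s + s⁻¹` as a linear map -/
def tau (s : V ≃ₗ[F] V) : Module.End F V := (s : V →ₗ[F] V) + (s⁻¹ : V ≃ₗ[F] V)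

/-- the elements `a` of the algebra `F[s + s⁻¹]` with `a ^ (q ^ t) = a`, where `q` is the number
of elements of `F` -/
def subfieldSet (s : V ≃ₗ[F] V) (t : ℕ) : Set (Module.End F V) :=
  {a | a ∈ Algebra.adjoin F {tau s} ∧ a ^ (Nat.card F ^ t) = a}

theorem conj_mul (g h : V ≃ₗ[F] V) (a : Module.End F V) :
    (g * h).conj a = g.conj (h.conj a) := rfl

theorem conj_one (a : Module.End F V) : (1 : V ≃ₗ[F] V).conj a = a := rfl

theorem conj_inv_conj (g : V ≃ₗ[F] V) (a : Module.End F V) : g.conj (g⁻¹.conj a) = a := by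
  rw [← conj_mul, mul_inv_cancel, conj_one]

/-- `h` normalises the set `subfieldSet s t`: a linear map `a` lies in it if and only if `h a h⁻¹`
does -/
def Normalises (s : V ≃ₗ[F] V) (t : ℕ) (h : V ≃ₗ[F] V) : Prop :=
  ∀ a, a ∈ subfieldSet s t ↔ h.conj a ∈ subfieldSet s t

theorem Normalises.mul {s : V ≃ₗ[F] V} {t : ℕ} {g h : V ≃ₗ[F] V} (hg : Normalises s t g)
    (hh : Normalises s t h) : Normalises s t (g * h) := by
  intro a
  rw [hh a, hg]; rfl

theorem Normalises.inv {s : V ≃ₗ[F] V} {t : ℕ} {h : V ≃ₗ[F] V} (hh : Normalises s t h) :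
    Normalises s t h⁻¹ := by
  intro a
  rw [hh (h⁻¹.conj a), conj_inv_conj]

theorem Normalises.one (s : V ≃ₗ[F] V) (t : ℕ) : Normalises s t 1 := fun _ => Iff.rfl

/-- the invertible linear maps normalising `subfieldSet s t` -/
def normField (s : V ≃ₗ[F] V) (t : ℕ) : Subgroup (V ≃ₗ[F] V) where
  carrier := {h | Normalises s t h}
  mul_mem' := Normalises.mul
  one_mem' := Normalises.one s t
  inv_mem' := Normalises.inv

/-- the elements of `Ω(Q)` normalising the set `subfieldSet s t` -/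
def fieldStab (Q : QuadraticForm F V) (s : V ≃ₗ[F] V) (t : ℕ) : Subgroup (V ≃ₗ[F] V) :=
  Omega Q ⊓ normField s t

/-- the projection from `Ω(Q)` to `PΩ(Q)` -/
def proj (Q : QuadraticForm F V) (g : Omega Q) : POmega Q := QuotientGroup.mk g

/-- the image in `PΩ(Q)` of the elements of `Ω(Q)` normalising the set `subfieldSet s t` -/
def fieldStabImage (Q : QuadraticForm F V) (s : V ≃ₗ[F] V) (t : ℕ) : Set (POmega Q) :=
  {x | ∃ g : Omega Q, g.1 ∈ normField s t ∧ proj Q g = x}

end Pool.Agent.OmegaOdd
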