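import Mathlib
import Pool.Agent.OmegaEven.Global2
import Pool.Agent.OmegaEven.Group1
import Pool.Agent.OmegaEven.Final
import Pool.Agent.OmegaOdd.Defs

set_option autoImplicit false
set_option linter.unusedSectionVars false
set_option linter.unusedVariables false
set_option linter.style.haveILetI false

namespace Pool.Agent.OmegaOdd

open Module Pool.Agent.OmegaEven

/-- a subalgebra generated by one element, all of whose nonzero elements are injective -/
theorem isField_adjoin' {F X : Type*} [Field F] [Finite F] [AddCommGroup X] [Module F X]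
    [FiniteDimensional F X] [Nontrivial X] (c : Module.End F X)
    (hinj : ∀ r ∈ Algebra.adjoin F {c}, r ≠ 0 → ∀ x, r x = 0 → x = 0) :
    IsField (Algebra.adjoin F {c}) := by
  have hRc : ∀ r ∈ Algebra.adjoin F {c}, Commute r c := by
    intro r hr
    induction hr using Algebra.adjoin_induction with
    | mem x hx => rw [Set.mem_singleton_iff.1 hx]
    | algebraMap a => exact Algebra.commutes a c
    | add a b _ _ ha hb => exact ha.add_left hb
    | mul a b _ _ ha hb => exact ha.mul_left hb
  have hRR : ∀ r ∈ Algebra.adjoin F {c}, ∀ s ∈ Algebra.adjoin F {c}, Commute r s := by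
    intro r hr s hs
    induction hs using Algebra.adjoin_induction with
    | mem x hx => rw [Set.mem_singleton_iff.1 hx]; exact hRc r hr
    | algebraMap a => exact (Algebra.commutes a r).symm
    | add a b _ _ ha hb => exact ha.add_right hb
    | mul a b _ _ ha hb => exact ha.mul_right hb
  haveI : Finite (Module.End F X) := Module.finite_of_finite F
  refine ⟨⟨0, 1, ?_⟩, ?_, ?_⟩
  · intro h
    have h1 : (0 : Module.End F X) = 1 := congrArg Subtype.val h
    exact zero_ne_one h1
  · intro a b
    exact Subtype.ext (hRR a.1 a.2 b.1 b.2).eq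
  · intro a ha
    obtain ⟨m, hm, h1⟩ := exists_pow_idem a.1
    have ha' : a.1 ≠ 0 := fun h => ha (Subtype.ext h)
    have hi : ∀ k : ℕ, ∀ x, (a.1 ^ k) x = 0 → x = 0 := by
      intro k
      induction k with
      | zero => intro x hx; exact hx
      | succ k ih =>
        intro x hx
        have hx' : (a.1 ^ k) (a.1 x) = 0 := by
          rw [pow_succ] at hx; exact hx
        exact hinj a.1 a.2 ha' _ (ih _ hx')
    have h4 : a.1 ^ m = 1 := by
      ext x
      have h5 : (a.1 ^ m) ((a.1 ^ m) x - x) = 0 := by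
        rw [map_sub, sub_eq_zero]
        exact LinearMap.congr_fun h1 x
      exact sub_eq_zero.1 (hi m _ h5)
    refine ⟨a ^ (m - 1), Subtype.ext ?_⟩
    change a.1 * a.1 ^ (m - 1) = 1
    rw [← pow_succ', Nat.sub_add_cancel hm, h4]

theorem Bsymm {F V : Type*} [Field F] [AddCommGroup V] [Module F V] (S : QSp F V) (x y : V) :
    S.B x y = S.B y x := by
  have h1 := S.add x y
  have h2 := S.add y x
  rw [add_comm y x, h1] at h2
  linear_combination h2

theorem Bself {F V : Type*} [Field F] [AddCommGroup V] [Module F V] (S : QSp F V) (x : V) :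
    S.B x x = 2 * S.Q x := by
  have h1 := S.add x x
  have h2 := S.smul 2 x
  rw [two_smul] at h2
  linear_combination h2 - h1

theorem tau_apply {F V : Type*} [Field F] [AddCommGroup V] [Module F V] (s : V ≃ₗ[F] V) (x : V) :
    tau s x = s x + s⁻¹ x := rfl

/-- the structure of an irreducible isometry -/
theorem irr_struct_odd.{u, v} {F : Type v} {X : Type u} [Field F] [Finite F] (hF2 : (2 : F) ≠ 0)
    [AddCommGroup X] [Module F X] [FiniteDimensional F X] (S : QSp F X) (s : X ≃ₗ[F] X)
    (hs : s ∈ S.O)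
    (hirr : ∀ Y : Submodule F X, (∀ y ∈ Y, s y ∈ Y) → Y = ⊥ ∨ Y = ⊤)
    (h2 : 2 ≤ finrank F X) :
    ∃ (L : Type u) (_ : Field L) (_ : Finite L) (_ : Algebra F L)
      (ι : L →ₐ[F] Module.End F X),
      (∀ r, r ∈ Algebra.adjoin F {tau s} ↔ ∃ a, ι a = r) ∧
      (∀ a x y, S.B (ι a x) y = S.B x (ι a y)) ∧
      (∀ a x, ι a (s x) = s (ι a x)) ∧
      ∃ (κ : Module.End F X) (D : L) (u : X), u ≠ 0 ∧ (∀ a x, ι a (κ x) = κ (ι a x)) ∧
        (∀ x, κ (κ x) = ι D x) ∧ ¬ IsSquare D ∧ (∀ x y, S.B (κ x) y = - S.B x (κ y)) ∧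
        (∀ y, ∃ a b, y = ι a u + ι b (κ u)) ∧
        (∀ a b, ι a u + ι b (κ u) = 0 → a = 0 ∧ b = 0) ∧ (∀ x, κ (s x) = s (κ x)) := by
  haveI : Nontrivial X := by
    apply Module.nontrivial_of_finrank_pos (R := F); omega
  have hsB : ∀ x y, S.B (s x) (s y) = S.B x y := S.O_B hs
  have hts : ∀ x, s⁻¹ (s x) = x := inv_apply_self' s
  have hst : ∀ x, s (s⁻¹ x) = x := apply_inv_self' s
  have hadj_s : ∀ x y, S.B (s x) y = S.B x (s⁻¹ y) := by
    intro x y
    rw [← hsB x (s⁻¹ y), hst]
  have hadj_t : ∀ x y, S.B (s⁻¹ x) y = S.B x (s y) := by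
    intro x y
    rw [Bsymm, ← hadj_s, Bsymm]
  -- maps commuting with `s`
  have hcomm_inj : ∀ r : Module.End F X, (∀ x, r (s x) = s (r x)) → r ≠ 0 →
      ∀ x, r x = 0 → x = 0 := by
    intro r hr hr0 x hx
    rcases hirr (LinearMap.ker r) (by
      intro y hy
      rw [LinearMap.mem_ker] at hy ⊢
      rw [hr, hy, map_zero]) with h | h
    · have : x ∈ LinearMap.ker r := hx
      rw [h] at this
      exact (Submodule.mem_bot F).1 this
    · exact absurd (LinearMap.ker_eq_top.1 h) hr0
  have hcomm : ∀ r ∈ Algebra.adjoin F {tau s}, ∀ x, r (s x) = s (r x) := by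
    intro r hr
    induction hr using Algebra.adjoin_induction with
    | mem x hx =>
      rw [Set.mem_singleton_iff.1 hx]
      intro y
      rw [tau_apply, tau_apply, map_add, hts, hst]
    | algebraMap a =>
      intro y
      change a • s y = s (a • y)
      rw [map_smul]
    | add a b _ _ ha hb =>
      intro y
      rw [LinearMap.add_apply, LinearMap.add_apply, map_add, ha, hb]
    | mul a b _ _ ha hb =>
      intro y
      change a (b (s y)) = s (a (b y))
      rw [hb, ha]
  have hf : IsField (Algebra.adjoin F {tau s}) :=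
    isField_adjoin' (tau s) fun r hr hr0 => hcomm_inj r (hcomm r hr) hr0
  have hadj : ∀ r ∈ Algebra.adjoin F {tau s}, ∀ x y, S.B (r x) y = S.B x (r y) := by
    intro r hr
    induction hr using Algebra.adjoin_induction with
    | mem x hx =>
      rw [Set.mem_singleton_iff.1 hx]
      intro x y
      rw [tau_apply, tau_apply, map_add, map_add, LinearMap.add_apply, hadj_s, hadj_t, add_comm]
    | algebraMap a =>
      intro x y
      change S.B (a • x) y = S.B x (a • y)
      rw [map_smul, map_smul, LinearMap.smul_apply]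
    | add a b _ _ ha hb =>
      intro x y
      rw [LinearMap.add_apply, LinearMap.add_apply, map_add, map_add, LinearMap.add_apply, ha, hb]
    | mul a b ha' hb' ha hb =>
      intro x y
      have : (a * b) y = (b * a) y := by
        have := hf.mul_comm ⟨a, ha'⟩ ⟨b, hb'⟩
        have h3 : a * b = b * a := congrArg Subtype.val this
        rw [h3]
      rw [this]
      change S.B (a (b x)) y = S.B x (b (a y))
      rw [ha, hb]
  have hτmem : tau s ∈ Algebra.adjoin F {tau s} := Algebra.self_mem_adjoin_singleton F _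
  -- two facts on vectors
  have h2x : ∀ x : X, x + x = 0 → x = 0 := by
    intro x hx
    rw [← two_smul F x] at hx
    exact (smul_eq_zero.1 hx).resolve_left hF2
  have hscal : ∀ e : F, ¬ ∀ x, s x = e • x := by
    intro e h
    obtain ⟨x, hx⟩ := exists_ne (0 : X)
    rcases hirr (F ∙ x) (by
      intro y hy
      rw [h]; exact Submodule.smul_mem _ _ hy) with h1 | h1
    · rw [Submodule.span_singleton_eq_bot] at h1
      exact hx h1
    · have h3 := finrank_span_singleton (K := F) hx
      rw [h1, finrank_top] at h3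
      omega
  -- `s ≠ s⁻¹`
  have hss : ∃ x, s x ≠ s⁻¹ x := by
    by_contra hcon
    push Not at hcon
    have hsq : ∀ x, s (s x) = x := fun x => by rw [hcon (s x), hts]
    by_cases hp : (s : X →ₗ[F] X) + LinearMap.id = 0
    · apply hscal (-1)
      intro x
      have h3 : s x + x = 0 := LinearMap.congr_fun hp x
      rw [neg_smul, one_smul]
      exact eq_neg_of_add_eq_zero_left h3
    · apply hscal 1
      intro x
      have h4 := hcomm_inj ((s : X →ₗ[F] X) + LinearMap.id) (by
        intro x
        change s (s x) + s x = s (s x + x)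
        rw [map_add]) hp (s x - x) (by
          change s (s x - x) + (s x - x) = 0
          rw [map_sub, hsq]; abel)
      rw [one_smul]
      exact sub_eq_zero.1 h4
  -- the skew element
  obtain ⟨κ, hκ⟩ : ∃ κ : Module.End F X, ∀ x, κ x = s x - s⁻¹ x :=
    ⟨(s : X →ₗ[F] X) - (s⁻¹ : X ≃ₗ[F] X), fun x => rfl⟩
  have hκs : ∀ x, κ (s x) = s (κ x) := by
    intro x
    rw [hκ, hκ, map_sub, hts, hst]
  have hcommt : ∀ r ∈ Algebra.adjoin F {tau s}, ∀ x, r (s⁻¹ x) = s⁻¹ (r x) := by
    intro r hr x
    rw [← hts (r (s⁻¹ x)), ← hcomm r hr, hst]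
  have hκr : ∀ r ∈ Algebra.adjoin F {tau s}, ∀ x, r (κ x) = κ (r x) := by
    intro r hr x
    rw [hκ, hκ, map_sub, hcomm r hr, hcommt r hr]
  have hκB : ∀ x y, S.B (κ x) y = - S.B x (κ y) := by
    intro x y
    rw [hκ, hκ, map_sub, map_sub, LinearMap.sub_apply, hadj_s, hadj_t]; ring
  have hκ0 : κ ≠ 0 := by
    intro h
    obtain ⟨x, hx⟩ := hss
    apply hx
    rw [← sub_eq_zero, ← hκ, h]; rfl
  have hκκ : ∀ x, κ (κ x) = (tau s * tau s - algebraMap F (Module.End F X) 4) x := by
    intro x
    have e1 : (tau s * tau s - algebraMap F (Module.End F X) 4) x =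
        tau s (tau s x) - (4 : F) • x := rfl
    rw [e1, tau_apply, tau_apply, hκ, hκ, map_sub, map_sub, map_add, map_add, hts, hst]
    module
  have hDmem : tau s * tau s - algebraMap F (Module.End F X) 4 ∈ Algebra.adjoin F {tau s} :=
    Subalgebra.sub_mem _ (Subalgebra.mul_mem _ hτmem hτmem) (Subalgebra.algebraMap_mem _ _)
  -- `κ` is not in the subalgebra, even at one vector
  have hnotL : ∀ r ∈ Algebra.adjoin F {tau s}, ∀ x, x ≠ 0 → κ x ≠ r x := by
    intro r hr x hx h
    have h3 : κ = r := by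
      by_contra hne
      have h4 := hcomm_inj (κ - r) (by
        intro y
        rw [LinearMap.sub_apply, LinearMap.sub_apply, map_sub, hcomm r hr, hκs])
        (sub_ne_zero.2 hne) x
      apply hx
      apply h4
      rw [LinearMap.sub_apply, h, sub_self]
    apply hκ0
    ext z
    have h5 : κ z = 0 := by
      apply h2x
      apply S.nd
      intro y
      have h6 := hadj r hr z y
      rw [← h3] at h6
      have h7 := hκB z y
      rw [map_add, LinearMap.add_apply]
      linear_combination h6 + h7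
    rw [h5]; rfl
  obtain ⟨u, hu⟩ := exists_ne (0 : X)
  have hspan : ∀ y, ∃ a ∈ Algebra.adjoin F {tau s}, ∃ b ∈ Algebra.adjoin F {tau s},
      y = a u + b (κ u) := by
    let Y : Submodule F X :=
      { carrier := {y | ∃ a ∈ Algebra.adjoin F {tau s}, ∃ b ∈ Algebra.adjoin F {tau s},
          y = a u + b (κ u)}
        add_mem' := by
          rintro _ _ ⟨a, ha, b, hb, rfl⟩ ⟨a', ha', b', hb', rfl⟩
          refine ⟨a + a', Subalgebra.add_mem _ ha ha', b + b', Subalgebra.add_mem _ hb hb', ?_⟩
          rw [LinearMap.add_apply, LinearMap.add_apply]; abel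
        zero_mem' := ⟨0, Subalgebra.zero_mem _, 0, Subalgebra.zero_mem _, by simp⟩
        smul_mem' := by
          rintro c _ ⟨a, ha, b, hb, rfl⟩
          refine ⟨c • a, Subalgebra.smul_mem _ ha c, c • b, Subalgebra.smul_mem _ hb c, ?_⟩
          rw [LinearMap.smul_apply, LinearMap.smul_apply, smul_add] }
    -- `s = (τ + κ)/2`
    have hshalf : ∀ x, s x = (2⁻¹ : F) • (tau s x + κ x) := by
      intro x
      rw [tau_apply, hκ]
      have : s x + s⁻¹ x + (s x - s⁻¹ x) = (2 : F) • s x := by rw [two_smul]; abel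
      rw [this, smul_smul, inv_mul_cancel₀ hF2, one_smul]
    rcases hirr Y (by
      rintro _ ⟨a, ha, b, hb, rfl⟩
      refine ⟨(2⁻¹ : F) • (tau s * a + b * (tau s * tau s - algebraMap F (Module.End F X) 4)),
        Subalgebra.smul_mem _ (Subalgebra.add_mem _ (Subalgebra.mul_mem _ hτmem ha)
          (Subalgebra.mul_mem _ hb hDmem)) _, (2⁻¹ : F) • (a + tau s * b),
        Subalgebra.smul_mem _ (Subalgebra.add_mem _ ha (Subalgebra.mul_mem _ hτmem hb)) _, ?_⟩
      rw [hshalf, LinearMap.smul_apply, LinearMap.smul_apply, ← smul_add]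
      congr 1
      rw [LinearMap.add_apply, LinearMap.add_apply]
      change tau s (a u + b (κ u)) + κ (a u + b (κ u)) =
        tau s (a u) + b ((tau s * tau s - algebraMap F (Module.End F X) 4) u) +
          (a (κ u) + tau s (b (κ u)))
      rw [← hκκ, map_add, map_add, ← hκr a ha, ← hκr b hb]
      abel) with h | h
    · exfalso
      have h3 : u ∈ Y := ⟨1, Subalgebra.one_mem _, 0, Subalgebra.zero_mem _, by simp⟩
      rw [h] at h3
      exact hu ((Submodule.mem_bot F).1 h3)
    · intro y
      have h3 : y ∈ Y := by rw [h]; trivial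
      exact h3
  haveI : Finite (Module.End F X) := Module.finite_of_finite F
  letI : Field (Algebra.adjoin F {tau s}) := hf.toField
  refine ⟨Algebra.adjoin F {tau s}, inferInstance, inferInstance, inferInstance,
    (Algebra.adjoin F {tau s}).val, fun r => ⟨fun hr => ⟨⟨r, hr⟩, rfl⟩, ?_⟩,
    fun a x y => hadj a.1 a.2 x y, fun a x => hcomm a.1 a.2 x, κ, ⟨_, hDmem⟩, u, hu,
    fun a x => hκr a.1 a.2 x, hκκ, ?_, hκB, ?_, ?_, hκs⟩
  · rintro ⟨a, rfl⟩
    exact a.2
  · rintro ⟨c, hc⟩
    -- `κ ^ 2 = c ^ 2`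
    have hc2 : ∀ x, κ (κ x) = c.1 (c.1 x) := by
      intro x
      rw [hκκ]
      exact LinearMap.congr_fun (congrArg Subtype.val hc) x
    by_cases h3 : κ - c.1 = 0
    · exact hnotL c.1 c.2 u hu (LinearMap.congr_fun (sub_eq_zero.1 h3) u)
    · have h4 := hcomm_inj (κ - c.1) (by
        intro y
        rw [LinearMap.sub_apply, LinearMap.sub_apply, map_sub, hcomm c.1 c.2, hκs]) h3
        (κ u + c.1 u) (by
          rw [LinearMap.sub_apply, map_add, map_add, hc2, hκr c.1 c.2]; abel)
      have h5 : κ u = (-c.1) u := by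
        rw [LinearMap.neg_apply]
        exact eq_neg_of_add_eq_zero_left h4
      exact hnotL (-c.1) (Subalgebra.neg_mem _ c.2) u hu h5
  · intro y
    obtain ⟨a, ha, b, hb, rfl⟩ := hspan y
    exact ⟨⟨a, ha⟩, ⟨b, hb⟩, rfl⟩
  · intro a b hab
    have hb : b = 0 := by
      by_contra hb
      have h3 : κ u = (-(b⁻¹ * a)).1 u := by
        have h4 : b.1 (κ u) = -(a.1 u) := by
          rw [eq_neg_iff_add_eq_zero, add_comm]; exact hab
        have h5 : (b⁻¹).1 (b.1 (κ u)) = κ u := by
          have h6 : b⁻¹ * b = 1 := inv_mul_cancel₀ hb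
          have h7 : (b⁻¹).1 * b.1 = 1 := congrArg Subtype.val h6
          exact LinearMap.congr_fun h7 (κ u)
        rw [← h5, h4, map_neg]
        rfl
      exact hnotL _ (-(b⁻¹ * a)).2 u hu h3
    refine ⟨?_, hb⟩
    by_contra ha
    have ha' : a.1 ≠ 0 := fun h => ha (Subtype.ext h)
    have h3 : a.1 u = 0 := by
      rw [hb] at hab
      have h4 : a.1 u + (0 : Module.End F X) (κ u) = 0 := hab
      simpa using h4
    exact hu (hcomm_inj a.1 (hcomm a.1 a.2) ha' u h3)

end Pool.Agent.OmegaOdd
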