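import Mathlib
import Pool.Agent.OmegaOdd.Core2
import Pool.Agent.OmegaOdd.Rot
import Pool.Agent.OmegaOdd.Struct

set_option autoImplicit false
set_option linter.unusedSectionVars false
set_option linter.unusedVariables false
set_option linter.style.haveILetI false

namespace Pool.Agent.OmegaOdd

open Module Pool.Agent.OmegaEven
open scoped commutatorElement

section
variable {F M : Type*} [Field F] [Field M] [Finite M] [Algebra F M]

/-- the rotation as a linear automorphism -/
def ggE (x y η : M) (h1 : x ^ 2 + η * y ^ 2 = 1) : (M × M) ≃ₗ[F] (M × M) where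
  toFun := gg x y η
  invFun := gg x (-y) η
  map_add' := gg_add x y η
  map_smul' := fun c w => by
    rw [← algebraMap_smul M c w, gg_smul, algebraMap_smul]; rfl
  left_inv := gg_gg' h1
  right_inv := gg_gg h1

/-- the reflection in the second coordinate -/
def rE : (M × M) ≃ₗ[F] (M × M) where
  toFun := fun w => (w.1, -w.2)
  invFun := fun w => (w.1, -w.2)
  map_add' := fun w w' => by ext <;> simp [add_comm]
  map_smul' := fun c w => by ext <;> simp
  left_inv := fun w => by simp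
  right_inv := fun w => by simp

theorem ggE_apply (x y η : M) (h1 : x ^ 2 + η * y ^ 2 = 1) (w : M × M) :
    (ggE x y η h1 : (M × M) ≃ₗ[F] (M × M)) w = gg x y η w := rfl

theorem rE_apply (w : M × M) : (rE : (M × M) ≃ₗ[F] (M × M)) w = (w.1, -w.2) := rfl

theorem gg_comm (x y η : M) (h1 : x ^ 2 + η * y ^ 2 = 1) (w : M × M) :
    gg x y η (rE (F := F) (gg x (-y) η (rE (F := F) w))) =
      gg (x ^ 2 - η * y ^ 2) (2 * x * y) η w := by
  ext
  · simp only [gg, rE_apply]; ring
  · simp only [gg, rE_apply]; ring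

end

/-- the model of an irreducible isometry -/
theorem exists_model.{u, v} {F : Type v} {X : Type u} [Field F] [Finite F] (hF2 : (2 : F) ≠ 0)
    [AddCommGroup X] [Module F X] [FiniteDimensional F X] (S : QSp F X) (s : X ≃ₗ[F] X)
    (hs : s ∈ S.O)
    (hirr : ∀ Y : Submodule F X, (∀ y ∈ Y, s y ∈ Y) → Y = ⊥ ∨ Y = ⊤)
    {m : ℕ} (hm : 0 < m) (hme : Even m) (hX : finrank F X = 2 * m) :
    ∃ (L : Type u) (_ : Field L) (_ : Finite L) (_ : Algebra F L)
      (ι : L →ₐ[F] Module.End F X) (σ : L ≃ₐ[F] L) (Ψ : (L × L) ≃ₗ[F] X) (α η : L),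
      finrank F L = m ∧
      (∀ r, r ∈ Algebra.adjoin F {tau s} ↔ ∃ a, ι a = r) ∧
      (∀ a x, ι a (s x) = s (ι a x)) ∧
      (∀ a, σ a = a ^ Nat.card F) ∧
      (∀ a w, ι a (Ψ w) = Ψ (dd (σ : L →+* L) a w)) ∧
      α ≠ 0 ∧ ¬ IsSquare η ∧
      (∀ w w', S.B (Ψ w) (Ψ w') =
        Algebra.trace F L (α * (w.1 * w'.1 + η * (w.2 * w'.2)))) := by
  obtain ⟨L, hL1, hL2, hL3, ι, hadj, hself, hcs, κ, D, u, hu, hικ, hκκ, hD, hskew, hspan, hind, -⟩ :=
    irr_struct_odd hF2 S s hs hirr (by omega)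
  haveI : FiniteDimensional F L := Module.Finite.of_finite
  cases nonempty_fintype F
  let σ : L ≃ₐ[F] L := FiniteField.frobeniusAlgEquivOfAlgebraic F L
  have hσ : ∀ a, σ a = a ^ Nat.card F := by
    intro a
    rw [Nat.card_eq_fintype_card]; rfl
  -- the map
  let Ψ₀ : (L × L) →ₗ[F] X :=
    { toFun := fun w => ι w.1 u + ι (σ.symm w.2) (κ u)
      map_add' := fun w w' => by
        simp only [Prod.fst_add, Prod.snd_add, map_add, LinearMap.add_apply]; abel
      map_smul' := fun c w => by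
        simp only [Prod.smul_fst, Prod.smul_snd, map_smul, LinearMap.smul_apply, smul_add,
          RingHom.id_apply] }
  have hΨ₀ : ∀ w, Ψ₀ w = ι w.1 u + ι (σ.symm w.2) (κ u) := fun w => rfl
  have hinj : Function.Injective Ψ₀ := by
    rw [injective_iff_map_eq_zero]
    intro w hw
    rw [hΨ₀] at hw
    obtain ⟨h1, h2⟩ := hind _ _ hw
    ext
    · exact h1
    · have : σ.symm w.2 = σ.symm 0 := by rw [h2, map_zero]
      exact σ.symm.injective this
  have hsurj : Function.Surjective Ψ₀ := by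
    intro x
    obtain ⟨a, b, hab⟩ := hspan x
    refine ⟨(a, σ b), ?_⟩
    rw [hΨ₀, hab, AlgEquiv.symm_apply_apply]
  let Ψ : (L × L) ≃ₗ[F] X := LinearEquiv.ofBijective Ψ₀ ⟨hinj, hsurj⟩
  have hΨ : ∀ w, Ψ w = ι w.1 u + ι (σ.symm w.2) (κ u) := fun w => rfl
  have hmL : finrank F L = m := by
    have h1 := LinearEquiv.finrank_eq Ψ
    rw [Module.finrank_prod, hX] at h1
    omega
  have hL2' : (2 : L) ≠ 0 := by
    have h3 := (map_ne_zero (algebraMap F L)).2 hF2
    rwa [map_ofNat] at h3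
  -- the trace form
  let f : L →ₗ[F] F :=
    { toFun := fun a => S.B (ι a u) u
      map_add' := fun a b => by rw [map_add, LinearMap.add_apply, map_add, LinearMap.add_apply]
      map_smul' := fun c a => by
        rw [map_smul, LinearMap.smul_apply, map_smul, LinearMap.smul_apply]; rfl }
  obtain ⟨α, hα⟩ := exists_tr f
  have hα' : ∀ a, S.B (ι a u) u = Algebra.trace F L (α * a) := fun a => by
    rw [mul_comm, hα]; rfl
  have hcross : ∀ c, S.B (ι c u) (κ u) = 0 := by
    intro c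
    have h1 : S.B (ι c u) (κ u) = - S.B (ι c u) (κ u) := by
      calc S.B (ι c u) (κ u) = S.B (κ u) (ι c u) := Bsymm S _ _
        _ = - S.B u (κ (ι c u)) := hskew _ _
        _ = - S.B u (ι c (κ u)) := by rw [hικ]
        _ = - S.B (ι c u) (κ u) := by rw [hself]
    have h2 : 2 * S.B (ι c u) (κ u) = 0 := by linear_combination h1
    exact (mul_eq_zero.1 h2).resolve_left hF2
  have hmulι : ∀ a b x, ι a (ι b x) = ι (a * b) x := fun a b x => by rw [map_mul]; rfl
  have hα0 : α ≠ 0 := by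
    intro h0
    apply hu
    apply S.nd
    intro y
    obtain ⟨a, b, rfl⟩ := hspan y
    rw [map_add]
    have e1 : S.B u (ι a u) = 0 := by
      rw [← hself, hα', h0, zero_mul, map_zero]
    have e2 : S.B u (ι b (κ u)) = 0 := by
      rw [← hself]
      exact hcross b
    rw [e1, e2, add_zero]
  have hB1 : ∀ a b, S.B (ι a u) (ι b u) = Algebra.trace F L (α * (a * b)) := by
    intro a b
    rw [← hself, hmulι, hα', mul_comm b a]
  have hB2 : ∀ a b, S.B (ι a u) (ι b (κ u)) = 0 := by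
    intro a b
    rw [← hself, hmulι]
    exact hcross _
  have hB3 : ∀ a b, S.B (ι a (κ u)) (ι b (κ u)) = - Algebra.trace F L (α * (D * (a * b))) := by
    intro a b
    rw [hικ, hικ, hskew, hκκ, hmulι, hB1]
    congr 3
    ring
  have hσtr : ∀ z, Algebra.trace F L (σ z) = Algebra.trace F L z := fun z =>
    Algebra.trace_eq_of_algEquiv σ z
  refine ⟨L, hL1, hL2, hL3, ι, σ, Ψ, α, -(σ (α * D)) * α⁻¹, hmL, hadj, hcs, hσ, ?_, hα0, ?_, ?_⟩
  · intro a w
    rw [hΨ, hΨ, map_add, hmulι, hmulι]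
    have : σ.symm (dd (σ : L →+* L) a w).2 = a * σ.symm w.2 := by
      change σ.symm (σ a * w.2) = _
      rw [map_mul, AlgEquiv.symm_apply_apply]
    rw [this]; rfl
  · -- not a square
    have hodd : ∃ k, Nat.card F = 2 * k + 1 := by
      have h3 : Nat.card F % 2 = 1 := by
        rw [Nat.card_eq_fintype_card]
        apply FiniteField.odd_card_of_char_ne_two
        intro h
        apply hF2
        have := ringChar.Nat.cast_ringChar (R := F)
        rw [h] at this
        exact_mod_cast this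
      exact ⟨Nat.card F / 2, by omega⟩
    obtain ⟨k, hk⟩ := hodd
    obtain ⟨i, hi⟩ := isSquare_neg_one' (F := F) hL2' (by rw [hmL]; exact hme)
    rintro ⟨z, hz⟩
    apply hD
    have hD0 : D ≠ 0 := fun h => hD (h ▸ IsSquare.zero)
    rw [hσ, hk, pow_succ, pow_mul', sq] at hz
    have hp : (α * D) ^ k ≠ 0 := pow_ne_zero _ (mul_ne_zero hα0 hD0)
    refine ⟨z * i * ((α * D) ^ k)⁻¹, ?_⟩
    have e1 : -((α * D) ^ k * (α * D) ^ k * (α * D)) * α⁻¹ =
      (-1) * ((α * D) ^ k * (α * D) ^ k * D) := by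
      field_simp
    rw [e1] at hz
    obtain ⟨P, hP⟩ : ∃ P, P = (α * D) ^ k := ⟨_, rfl⟩
    rw [← hP] at hp hz ⊢
    have e2 : D = (-1) * (-1 * (P * P * D)) * (P⁻¹ * P⁻¹) := by
      field_simp
    calc D = (-1) * (-1 * (P * P * D)) * (P⁻¹ * P⁻¹) := e2
      _ = (i * i) * (z * z) * (P⁻¹ * P⁻¹) := by rw [hz, hi]
      _ = z * i * P⁻¹ * (z * i * P⁻¹) := by ring
  · intro w w'
    rw [hΨ, hΨ, map_add, map_add, LinearMap.add_apply, LinearMap.add_apply, hB1, hB2, hB3,
      Bsymm S (ι (σ.symm w.2) (κ u)), hB2]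
    have e1 : Algebra.trace F L (α * (D * (σ.symm w.2 * σ.symm w'.2))) =
        Algebra.trace F L (σ (α * D) * (w.2 * w'.2)) := by
      rw [← hσtr (α * (D * (σ.symm w.2 * σ.symm w'.2)))]
      congr 1
      simp only [map_mul, AlgEquiv.apply_symm_apply]
      ring
    rw [e1, add_zero, zero_add, ← sub_eq_add_neg, ← map_sub]
    congr 1
    field_simp
    ring

end Pool.Agent.OmegaOdd
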