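import Mathlib
import Pool.Agent.OmegaOdd.Model

set_option autoImplicit false
set_option linter.unusedSectionVars false
set_option linter.unusedVariables false
set_option linter.style.haveILetI false

namespace Pool.Agent.OmegaOdd

open Module Pool.Agent.OmegaEven
open scoped commutatorElement

theorem exists_moved {F L : Type*} [Field F] [Field L] [Finite L] [Algebra F L] (σ : L ≃ₐ[F] L)
    (hσ : ∀ a, σ a = a ^ Nat.card F) {t : ℕ} (ht : 1 < t) (htm : t ∣ finrank F L) :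
    ∃ a : L, a ^ (Nat.card F ^ t) = a ∧ (σ : L →+* L) a ≠ a := by
  haveI hF : Finite F := Finite.of_injective _ (algebraMap F L).injective
  obtain ⟨g, hg⟩ := IsCyclic.exists_generator (α := Lˣ)
  obtain ⟨q, hq⟩ : ∃ q, q = Nat.card F := ⟨_, rfl⟩
  have hq1 : 1 < q := hq ▸ Finite.one_lt_card
  have hQ : Nat.card L = q ^ finrank F L := by
    rw [hq, Module.natCard_eq_pow_finrank (K := F) (V := L)]
  have hgo : orderOf g = q ^ finrank F L - 1 := by
    rw [orderOf_eq_card_of_forall_mem_zpowers hg, Nat.card_units, hQ]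
  obtain ⟨k, hk⟩ := Nat.pow_sub_one_dvd_pow_sub_one q htm
  have hqt : q < q ^ t := by
    calc q = q ^ 1 := (pow_one q).symm
      _ < q ^ t := Nat.pow_lt_pow_right hq1 ht
  have hpos : 0 < q ^ finrank F L - 1 := by
    rw [← hgo]; exact orderOf_pos g
  have hk0 : k ≠ 0 := by
    rintro rfl
    rw [mul_zero] at hk
    omega
  have ho : orderOf (g ^ k) = q ^ t - 1 := by
    rw [orderOf_pow_of_dvd hk0 (by rw [hgo, hk]; exact dvd_mul_left _ _), hgo, hk,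
      Nat.mul_div_cancel _ (Nat.pos_of_ne_zero hk0)]
  refine ⟨((g ^ k : Lˣ) : L), ?_, ?_⟩
  · have h1 : (g ^ k) ^ (q ^ t) = g ^ k := by
      have h2 : (g ^ k) ^ (q ^ t - 1) = 1 := by rw [← ho]; exact pow_orderOf_eq_one _
      calc (g ^ k) ^ (q ^ t) = (g ^ k) ^ (q ^ t - 1) * g ^ k := by
            rw [← pow_succ, Nat.sub_add_cancel (by omega)]
        _ = g ^ k := by rw [h2, one_mul]
    rw [← hq, ← Units.val_pow_eq_pow_val, h1]
  · intro h
    have h0 : (σ : L →+* L) ((g ^ k : Lˣ) : L) = ((g ^ k : Lˣ) : L) ^ q := by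
      rw [hq]; exact hσ _
    rw [h0, ← Units.val_pow_eq_pow_val] at h
    have h1 : (g ^ k) ^ q = g ^ k := Units.ext h
    have h2 : (g ^ k) ^ (q - 1) = 1 := by
      have : (g ^ k) ^ (q - 1) * g ^ k = g ^ k := by
        rw [← pow_succ, Nat.sub_add_cancel (by omega), h1]
      exact mul_eq_right.1 this
    have h3 := Nat.le_of_dvd (by omega) (orderOf_dvd_of_pow_eq_one h2)
    rw [ho] at h3
    omega

section
variable {F V : Type*} [Field F] [AddCommGroup V] [Module F V]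

theorem conj_tau (g s : V ≃ₗ[F] V) : tau (g * s * g⁻¹) = g.conj (tau s) := by
  ext x
  rw [LinearEquiv.conj_apply_apply, tau_apply, tau_apply, map_add]
  have e : (g * s * g⁻¹)⁻¹ = g * s⁻¹ * g⁻¹ := by group
  rw [e]; rfl

theorem conj_pow (g : V ≃ₗ[F] V) (a : Module.End F V) (n : ℕ) : g.conj (a ^ n) = (g.conj a) ^ n :=
  map_pow (LinearEquiv.conjAlgEquiv F g) a n

theorem mem_subfieldSet_conj (g s : V ≃ₗ[F] V) (t : ℕ) (a : Module.End F V) :
    g.conj a ∈ subfieldSet (g * s * g⁻¹) t ↔ a ∈ subfieldSet s t := by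
  have h1 : Algebra.adjoin F {tau (g * s * g⁻¹)} =
      (Algebra.adjoin F {tau s}).map (LinearEquiv.conjAlgEquiv F g : _ →ₐ[F] Module.End F V) := by
    rw [AlgHom.map_adjoin_singleton, conj_tau]; rfl
  have h2 : Function.Injective (g.conj : Module.End F V → Module.End F V) :=
    g.conj.injective
  constructor
  · rintro ⟨h3, h4⟩
    rw [h1] at h3
    obtain ⟨b, hb, hba⟩ := h3
    have h5 : b = a := h2 hba
    refine ⟨h5 ▸ hb, ?_⟩
    rw [← conj_pow] at h4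
    exact h2 h4
  · rintro ⟨h3, h4⟩
    refine ⟨?_, ?_⟩
    · rw [h1]
      exact ⟨a, h3, rfl⟩
    · rw [← conj_pow, h4]

theorem mem_subfieldSet_conj' (g s : V ≃ₗ[F] V) (t : ℕ) (a : Module.End F V) :
    a ∈ subfieldSet (g * s * g⁻¹) t ↔ ∃ b ∈ subfieldSet s t, a = g.conj b := by
  constructor
  · intro h
    refine ⟨g⁻¹.conj a, ?_, (conj_inv_conj g a).symm⟩
    rw [← mem_subfieldSet_conj g, conj_inv_conj]
    exact h
  · rintro ⟨b, hb, rfl⟩
    exact (mem_subfieldSet_conj g s t b).2 hb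

end

/-- two conjugate field structures have a trivial common stabiliser -/
theorem part1.{u, v} {F : Type v} {X : Type u} [Field F] [Finite F] (hF2 : (2 : F) ≠ 0)
    [AddCommGroup X] [Module F X] [FiniteDimensional F X] (S : QSp F X) (s : X ≃ₗ[F] X)
    (hs : s ∈ S.O)
    (hirr : ∀ Y : Submodule F X, (∀ y ∈ Y, s y ∈ Y) → Y = ⊥ ∨ Y = ⊤)
    {m : ℕ} (hm : 0 < m) (hme : Even m) (hX : finrank F X = 2 * m) :
    ∃ g ∈ S.Om, ∀ t t', t ∣ m → t' ∣ m → 1 < t → 1 < t' → ∀ h ∈ S.O,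
      (∀ a ∈ subfieldSet s t, h.conj a ∈ subfieldSet s t) →
      (∀ a ∈ subfieldSet (g * s * g⁻¹) t', h.conj a ∈ subfieldSet (g * s * g⁻¹) t') →
      (∀ x, h x = x) ∨ (∀ x, h x = -x) := by
  obtain ⟨L, hL1, hL2, hL3, ι, σ, Ψ, α, η, hmL, hadj, hcs, hσ, hιΨ, hα, hη, hB⟩ :=
    exists_model hF2 S s hs hirr hm hme hX
  have hL2' : (2 : L) ≠ 0 := by
    have h3 := (map_ne_zero (algebraMap F L)).2 hF2
    rwa [map_ofNat] at h3
  obtain ⟨x₁, y₁, h1, hx, hy, hθ⟩ := exists_rotation (F := F) hL2' (by rw [hmL]; exact hme) hη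
  -- transporting maps
  obtain ⟨tt, htt⟩ : ∃ tt : X ≃ₗ[F] X, ∀ w, tt (Ψ w) = Ψ (gg x₁ y₁ η w) := by
    refine ⟨(Ψ.symm.trans (ggE x₁ y₁ η h1)).trans Ψ, fun w => ?_⟩
    simp only [LinearEquiv.trans_apply, LinearEquiv.symm_apply_apply]; rfl
  obtain ⟨rr, hrr⟩ : ∃ rr : X ≃ₗ[F] X, ∀ w, rr (Ψ w) = Ψ (rE (F := F) w) := by
    refine ⟨(Ψ.symm.trans rE).trans Ψ, fun w => ?_⟩
    simp only [LinearEquiv.trans_apply, LinearEquiv.symm_apply_apply]
  have hO : ∀ k : X ≃ₗ[F] X, (∀ x, S.B (k x) (k x) = S.B x x) → k ∈ S.O := by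
    intro k hk x
    have h3 := hk x
    rw [Bself, Bself] at h3
    exact mul_left_cancel₀ hF2 h3
  have httO : tt ∈ S.O := by
    apply hO
    intro x
    obtain ⟨w, rfl⟩ := Ψ.surjective x
    rw [htt, hB, hB]
    congr 1
    simp only [gg]
    linear_combination (α * (w.1 * w.1 + η * (w.2 * w.2))) * h1
  have hrrO : rr ∈ S.O := by
    apply hO
    intro x
    obtain ⟨w, rfl⟩ := Ψ.surjective x
    rw [hrr, hB, hB, rE_apply]
    congr 1
    ring
  have htti : ∀ w, tt⁻¹ (Ψ w) = Ψ (gg x₁ (-y₁) η w) := by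
    intro w
    have : Ψ w = tt (Ψ (gg x₁ (-y₁) η w)) := by rw [htt, gg_gg h1]
    rw [this, inv_apply_self']
  have hrri : ∀ w, rr⁻¹ (Ψ w) = Ψ (rE (F := F) w) := by
    intro w
    have : Ψ w = rr (Ψ (rE (F := F) w)) := by
      rw [hrr, rE_apply, rE_apply]; simp
    rw [this, inv_apply_self', rE_apply]
  obtain ⟨g, hg⟩ : ∃ g, g = ⁅tt, rr⁆ := ⟨_, rfl⟩
  have hgOm : g ∈ S.Om := by
    rw [hg]
    exact Subgroup.commutator_mem_commutator httO hrrO
  obtain ⟨x, hx'⟩ : ∃ x, x = x₁ ^ 2 - η * y₁ ^ 2 := ⟨_, rfl⟩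
  obtain ⟨y, hy'⟩ : ∃ y, y = 2 * x₁ * y₁ := ⟨_, rfl⟩
  have hgΨ : ∀ w, g (Ψ w) = Ψ (gg x y η w) := by
    intro w
    rw [hg, commutatorElement_def]
    change tt (rr (tt⁻¹ (rr⁻¹ (Ψ w)))) = _
    rw [hrri, htti, hrr, htt, gg_comm _ _ _ h1, hx', hy']
  rw [← hx'] at hx hθ
  rw [← hy'] at hy
  have hxy : x ^ 2 + η * y ^ 2 = 1 := by
    rw [hx', hy']
    linear_combination (x₁ ^ 2 + η * y₁ ^ 2 + 1) * h1
  have hgi : ∀ w, g⁻¹ (Ψ w) = Ψ (gg x (-y) η w) := by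
    intro w
    have : Ψ w = g (Ψ (gg x (-y) η w)) := by rw [hgΨ, gg_gg hxy]
    rw [this, inv_apply_self']
  refine ⟨g, hgOm, ?_⟩
  intro t t' htm htm' ht ht' h hhO hst hst'
  have hmem : ∀ (t : ℕ) (a : L), a ^ (Nat.card F ^ t) = a → ι a ∈ subfieldSet s t := by
    intro t a ha
    refine ⟨(hadj _).2 ⟨a, rfl⟩, ?_⟩
    rw [← map_pow, ha]
  obtain ⟨a₀, ha₀, ha₀'⟩ := exists_moved σ hσ ht (by rw [hmL]; exact htm)
  obtain ⟨b₀, hb₀, hb₀'⟩ := exists_moved σ hσ ht' (by rw [hmL]; exact htm')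
  let H : (L × L) →ₗ[F] (L × L) :=
    (Ψ.symm : X →ₗ[F] L × L) ∘ₗ (h : X →ₗ[F] X) ∘ₗ (Ψ : L × L →ₗ[F] X)
  have hH : ∀ w, Ψ (H w) = h (Ψ w) := fun w => Ψ.apply_symm_apply _
  have hconj : ∀ (k : X ≃ₗ[F] X) (r : Module.End F X) z, (k.conj r) (k z) = k (r z) := by
    intro k r z
    rw [LinearEquiv.conj_apply_apply, LinearEquiv.symm_apply_apply]
  have hcore := core (F := F) (σ : L →+* L) hxy hη hx hy hθ
    {a | a ^ (Nat.card F ^ t) = a} {a | a ^ (Nat.card F ^ t') = a}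
    (fun a ha b hb => by
      change (a * b) ^ _ = a * b
      rw [mul_pow, show a ^ _ = a from ha, show b ^ _ = b from hb])
    (fun a ha b hb => by
      change (a * b) ^ _ = a * b
      rw [mul_pow, show a ^ _ = a from ha, show b ^ _ = b from hb])
    ⟨a₀, ha₀, ha₀'⟩ ⟨b₀, hb₀, hb₀'⟩ hα H (by
      intro w w' hww
      have h3 : Ψ (H w) = Ψ (H w') := by rw [hww]
      rw [hH, hH] at h3
      exact Ψ.injective (h.injective h3)) ?_ ?_ ?_
  · rcases hcore with h3 | h3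
    · left
      intro z
      obtain ⟨w, rfl⟩ := Ψ.surjective z
      rw [← hH, h3]
    · right
      intro z
      obtain ⟨w, rfl⟩ := Ψ.surjective z
      rw [← hH, h3, map_neg]
  · intro a ha
    obtain ⟨h3, h4⟩ := hst _ (hmem t a ha)
    obtain ⟨a', ha'⟩ := (hadj _).1 h3
    refine ⟨a', fun w => ?_⟩
    apply Ψ.injective
    rw [hH, ← hιΨ, ← hιΨ, hH, ha', hconj]
  · intro a ha
    obtain ⟨r, hr, hrr'⟩ := (mem_subfieldSet_conj' g s t' _).1
      (hst' _ ((mem_subfieldSet_conj g s t' _).2 (hmem t' a ha)))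
    obtain ⟨a', ha'⟩ := (hadj _).1 hr.1
    refine ⟨a', fun w => ?_⟩
    apply Ψ.injective
    have e1 : ∀ (b : L) (w : L × L), Ψ (dc (σ : L →+* L) x y η b w) = (g.conj (ι b)) (Ψ w) := by
      intro b w
      rw [dc, ← hgΨ, ← hιΨ, ← hgi, LinearEquiv.conj_apply_apply]; rfl
    rw [hH, e1, e1, hH, ha', ← hrr', hconj]
  · intro w w'
    rw [← hB, ← hB, hH, hH, S.O_B hhO]

end Pool.Agent.OmegaOdd
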