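import Mathlib
import Pool.Agent.OmegaOdd.Main1

set_option autoImplicit false
set_option linter.unusedSectionVars false
set_option linter.unusedVariables false
set_option linter.style.haveILetI false

namespace Pool.Agent.OmegaOdd

open Module Pool.Agent.OmegaEven
open scoped commutatorElement

variable {F V : Type*} [Field F] [AddCommGroup V] [Module F V]

theorem self_mem_normField (s : V ≃ₗ[F] V) (t : ℕ) : s ∈ normField s t := by
  have h1 : ∀ r ∈ Algebra.adjoin F {tau s}, s.conj r = r := by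
    intro r hr
    have hc : ∀ x, r (s x) = s (r x) := by
      induction hr using Algebra.adjoin_induction with
      | mem x hx =>
        rw [Set.mem_singleton_iff.1 hx]
        intro y
        rw [tau_apply, tau_apply, map_add, inv_apply_self', apply_inv_self']
      | algebraMap a =>
        intro y
        change a • s y = s (a • y)
        rw [map_smul]
      | add a b _ _ ha hb =>
        intro y
        rw [LinearMap.add_apply, LinearMap.add_apply, map_add, ha, hb]
      | mul a b _ _ ha hb =>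
        intro y
        change a (b (s y)) = s (a (b y))
        rw [hb, ha]
    ext x
    rw [LinearEquiv.conj_apply_apply, ← hc, LinearEquiv.apply_symm_apply]
  intro a
  constructor
  · intro ha
    rw [h1 a ha.1]; exact ha
  · intro ha
    have h2 : s.conj a = a := by
      apply s.conj.injective
      rw [h1 _ ha.1]
    rw [h2] at ha
    exact ha

theorem scalar_mem_normField (s : V ≃ₗ[F] V) (t : ℕ) (c : V ≃ₗ[F] V)
    (hc : c ∈ scalarGroup F V) : c ∈ normField s t := by
  obtain ⟨e, he⟩ := hc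
  intro a
  have h2 : c.conj a = a := by
    ext x
    rw [LinearEquiv.conj_apply_apply, he, ← map_smul, ← he, LinearEquiv.apply_symm_apply]
  rw [h2]

theorem conj_mem_normField (s g h : V ≃ₗ[F] V) (t : ℕ)
    (hh : h ∈ normField s t) : g * h * g⁻¹ ∈ normField (g * s * g⁻¹) t := by
  intro a
  obtain ⟨b, rfl⟩ : ∃ b, a = g.conj b := ⟨g⁻¹.conj a, (conj_inv_conj _ _).symm⟩
  have e2 : (g * h * g⁻¹).conj (g.conj b) = g.conj (h.conj b) := by
    rw [← conj_mul, ← conj_mul, inv_mul_cancel_right]
  rw [e2, mem_subfieldSet_conj, mem_subfieldSet_conj]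
  exact hh b

theorem pair_encard_le {α : Type*} (a b : α) : ({a, b} : Set α).encard ≤ 2 := by
  refine (Set.encard_insert_le _ _).trans ?_
  rw [Set.encard_singleton]
  norm_num

theorem odd_final [Finite F] (hF2 : (2 : F) ≠ 0) (m : ℕ) (hm : 0 < m) (hme : Even m)
    (hV : finrank F V = 2 * m) (Q : QuadraticForm F V) (hQ : Nondeg Q) (s : Omega Q)
    (hirr : ActsIrreducibly s.1) :
    (∃ g ∈ Omega Q,
      MeetIn (scalarGroup F V) (fieldStab Q s.1) (fieldStab Q (g * s.1 * g⁻¹)) m) ∧
    (OnlyOvergroups (proj Q s) (fieldStabImage Q s.1) m →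
      uniformDomination (POmega Q) = 2) := by
  haveI : FiniteDimensional F V := Module.finite_of_finrank_pos (by omega)
  haveI : Finite V := Module.finite_of_finite F
  haveI : Finite (V ≃ₗ[F] V) := by
    refine Finite.of_injective (fun e : V ≃ₗ[F] V => (e : V → V)) ?_
    intro a b hab
    exact LinearEquiv.ext (fun x => congrFun hab x)
  -- `± 1` is a scalar
  have hscal' : ∀ h : V ≃ₗ[F] V, ((∀ x, h x = x) ∨ (∀ x, h x = -x)) → h ∈ scalarGroup F V := by
    intro h hh
    rcases hh with hh | hh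
    · exact ⟨1, fun x => by rw [one_smul]; exact hh x⟩
    · exact ⟨-1, fun x => by rw [neg_one_smul]; exact hh x⟩
  have hscal : ∀ h : Omega Q, ((∀ x, h.1 x = x) ∨ (∀ x, h.1 x = -x)) → h ∈ scalarsIn Q :=
    fun h hh => hscal' h.1 hh
  have hp1 : ∃ g : Omega Q, ∀ t t', t ∣ m → t' ∣ m → 1 < t → 1 < t' →
      ∀ h : Omega Q, h.1 ∈ normField s.1 t → h.1 ∈ normField (g.1 * s.1 * g.1⁻¹) t' →
        (∀ x, h.1 x = x) ∨ (∀ x, h.1 x = -x) := by
    obtain ⟨g, hg, hg'⟩ := part1 hF2 (toQSp Q hQ) s.1 ((toQSp Q hQ).Om_le s.2) hirr hm hme hV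
    exact ⟨⟨g, hg⟩, fun t t' ht ht' h1t h1t' h hh hh' => hg' t t' ht ht' h1t h1t' h.1
      ((toQSp Q hQ).Om_le h.2) (fun a => (hh a).1) (fun a => (hh' a).1)⟩
  obtain ⟨g, hg⟩ := hp1
  refine ⟨⟨g.1, g.2, fun t t' ht ht' h1t h1t' h hh =>
    hscal' h (hg t t' ht ht' h1t h1t' ⟨h, hh.1.1⟩ hh.1.2 hh.2.2)⟩, fun hN => ?_⟩
  have hm2 : 2 ∣ m := hme.two_dvd
  -- `s` is not a scalar
  have hsns : s ∉ scalarsIn Q := by
    rintro ⟨c, hc⟩
    replace hc : ∀ x, s.1 x = c • x := hc
    haveI : Nontrivial V := by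
      apply Module.nontrivial_of_finrank_pos (R := F); omega
    obtain ⟨x, hx⟩ := exists_ne (0 : V)
    rcases hirr (F ∙ x) (by
      intro y hy
      rw [hc]; exact Submodule.smul_mem _ _ hy) with h1 | h1
    · rw [Submodule.span_singleton_eq_bot] at h1
      exact hx h1
    · have h3 := finrank_span_singleton (K := F) hx
      rw [h1, finrank_top] at h3
      omega
  have hs1 : (QuotientGroup.mk s : POmega Q) ≠ 1 := by
    intro h
    exact hsns ((QuotientGroup.eq_one_iff s).1 h)
  have econj : ∀ h : Omega Q, (QuotientGroup.mk (g * h * g⁻¹) : POmega Q) =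
      (QuotientGroup.mk g : POmega Q) * QuotientGroup.mk h * (QuotientGroup.mk g)⁻¹ := fun h => rfl
  apply le_antisymm
  · -- the pair
    refine (iInf₂_le ({QuotientGroup.mk s, QuotientGroup.mk (g * s * g⁻¹)} : Set (POmega Q))
      ⟨⟨?_, ?_⟩, ?_⟩).trans (pair_encard_le _ _)
    · rintro x (rfl | rfl)
      · exact hs1
      · intro h
        apply hs1
        rw [econj] at h
        exact conj_eq_one_iff.1 h
    · intro x hx
      by_contra hcon
      push Not at hcon
      have hc1 := hcon (QuotientGroup.mk s) (by simp)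
      have hc2 := hcon (QuotientGroup.mk (g * s * g⁻¹)) (by simp)
      obtain ⟨N, hN1, hN2⟩ := (eq_top_or_exists_le_coatom
        (Subgroup.closure {x, (QuotientGroup.mk s : POmega Q)})).resolve_left hc1
      obtain ⟨N', hN1', hN2'⟩ := (eq_top_or_exists_le_coatom
        (Subgroup.closure {x, (QuotientGroup.mk (g * s * g⁻¹) : POmega Q)})).resolve_left hc2
      have hxN : x ∈ N := hN2 (Subgroup.subset_closure (by simp))
      have hsN : (QuotientGroup.mk s : POmega Q) ∈ N := hN2 (Subgroup.subset_closure (by simp))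
      have hxN' : x ∈ N' := hN2' (Subgroup.subset_closure (by simp))
      have hsN' : (QuotientGroup.mk (g * s * g⁻¹) : POmega Q) ∈ N' :=
        hN2' (Subgroup.subset_closure (by simp))
      obtain ⟨t, htp, htm, hNt⟩ := hN N hN1 hsN
      -- conjugate back
      obtain ⟨G, hG⟩ : ∃ G : POmega Q, G = QuotientGroup.mk g := ⟨_, rfl⟩
      have hc : IsCoatom (N'.map (MulAut.conj G⁻¹).toMonoidHom) := by
        have h1 : N'.map (MulAut.conj G⁻¹).toMonoidHom =
          (MulAut.conj G⁻¹ : POmega Q ≃* POmega Q).mapSubgroup N' := rfl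
        rw [h1]
        exact (OrderIso.isCoatom_iff _ _).2 hN1'
      obtain ⟨t', htp', htm', hNt'⟩ := hN _ hc (by
        refine ⟨_, hsN', ?_⟩
        change G⁻¹ * _ * (G⁻¹)⁻¹ = QuotientGroup.mk s
        rw [econj, ← hG]
        group)
      obtain ⟨h, hh, hhx⟩ := hNt hxN
      obtain ⟨h', hh', hhx'⟩ := hNt' ⟨x, hxN', rfl⟩
      -- `g h' g⁻¹` is in the second stabiliser
      have h2 := conj_mem_normField s.1 g.1 h'.1 t' hh'
      have h3 : (QuotientGroup.mk (g * h' * g⁻¹) : POmega Q) = x := by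
        have e2 : (QuotientGroup.mk h' : POmega Q) = G⁻¹ * x * (G⁻¹)⁻¹ := hhx'
        rw [econj, e2, ← hG]
        group
      have h4 : (g * h' * g⁻¹)⁻¹ * h ∈ scalarsIn Q := by
        rw [← QuotientGroup.eq, h3]
        exact hhx.symm
      have h5 : h.1 ∈ normField (g.1 * s.1 * g.1⁻¹) t' := by
        have : h = (g * h' * g⁻¹) * ((g * h' * g⁻¹)⁻¹ * h) := by group
        rw [this]
        exact Subgroup.mul_mem _ h2 (scalar_mem_normField _ _ _ h4)
      have h6 := hscal h (hg t t' htm htm' htp.one_lt htp'.one_lt h hh h5)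
      apply hx
      rw [← hhx]
      exact (QuotientGroup.eq_one_iff h).2 h6
    · intro a ha b hb
      have e : IsConj (QuotientGroup.mk s : POmega Q) (QuotientGroup.mk (g * s * g⁻¹)) :=
        isConj_iff.2 ⟨QuotientGroup.mk g, rfl⟩
      rcases ha with rfl | rfl <;> rcases hb with rfl | rfl
      · exact IsConj.refl _
      · exact e
      · exact e.symm
      · exact IsConj.refl _
  · -- the lower bound
    rw [uniformDomination]
    refine le_iInf₂ fun T hT => ?_
    obtain ⟨⟨hT1, hT2⟩, hTc⟩ := hT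
    by_contra hcon
    push Not at hcon
    obtain ⟨a, ha, -⟩ := hT2 _ hs1
    have hTa : ∀ b ∈ T, b = a := by
      intro b hb
      by_contra hne
      have h1 : ({a, b} : Set (POmega Q)) ⊆ T := by
        rintro x (rfl | rfl) <;> assumption
      have h2 := Set.encard_le_encard h1
      rw [Set.encard_pair (Ne.symm hne)] at h2
      exact absurd h2 (not_le.2 hcon)
    obtain ⟨b, hb, hgen⟩ := hT2 a (hT1 a ha)
    rw [hTa b hb, Set.pair_eq_singleton, ← Subgroup.zpowers_eq_closure] at hgen
    have hcomm : ∀ x y : POmega Q, x * y = y * x := by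
      intro x y
      have hx : x ∈ Subgroup.zpowers a := by rw [hgen]; trivial
      have hy : y ∈ Subgroup.zpowers a := by rw [hgen]; trivial
      obtain ⟨i, rfl⟩ := hx
      obtain ⟨j, rfl⟩ := hy
      change a ^ i * a ^ j = a ^ j * a ^ i
      rw [← zpow_add, ← zpow_add, add_comm]
    have h1 : (QuotientGroup.mk (g * s * g⁻¹) : POmega Q) = QuotientGroup.mk s := by
      rw [econj, hcomm (QuotientGroup.mk g), mul_inv_cancel_right]
    have h2 : (g * s * g⁻¹)⁻¹ * s ∈ scalarsIn Q := QuotientGroup.eq.1 h1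
    have h3 : s.1 ∈ normField (g.1 * s.1 * g.1⁻¹) 2 := by
      have h4 : s.1 = (g.1 * s.1 * g.1⁻¹) * ((g.1 * s.1 * g.1⁻¹)⁻¹ * s.1) := by group
      have h5 := Subgroup.mul_mem _ (self_mem_normField (g.1 * s.1 * g.1⁻¹) 2)
        (scalar_mem_normField (g.1 * s.1 * g.1⁻¹) 2 _ h2)
      change (g.1 * s.1 * g.1⁻¹) * ((g.1 * s.1 * g.1⁻¹)⁻¹ * s.1) ∈ _ at h5
      rw [← h4] at h5
      exact h5
    exact hsns (hscal s (hg 2 2 hm2 hm2 (by norm_num) (by norm_num) s
      (self_mem_normField s.1 2) h3))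

end Pool.Agent.OmegaOdd
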